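import Mathlib
import Pool.Agent.Helper40.CX.H83KPA.Cov
import Pool.Agent.Helper40.CX.Good2

namespace CX

/-!
# KP: the degrees of the invariants of the pencil `Z b² l³ - 4 G l² + 4 F l - Z a²`

`PS = l² A`, `PT = l³ B` with `deg A ≤ 8`, `deg B ≤ 12`. At `l = 0`: the form is `l u - Z a²`; after a linear change of
coordinates `Z a²` is `Z X²` or a multiple of `Z³`; the coefficient of `Z X²` has degree at most 2 in `PS`, at most 3 in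
`PT`. At `l = ∞` the same argument is applied to `Z b² - 4 G l + 4 F l² - Z a² l³`.
-/

set_option linter.unusedSectionVars false

namespace Pool.Agent.Helper83.KPA

open Pool.Agent.Helper15.KP (PS PT Dsc)
open Pool.Agent.Helper83.PC (act act_mul act_map act_smul pull cub dcub mcub)

section ring

variable {R : Type*} [CommRing R]

lemma PS_dvd2 {c u : Fin 10 → R} {t w : R}
    (h0 : c 0 = t * u 0)
    (h1 : c 1 = t * u 1)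
    (h2 : c 2 = w)
    (h3 : c 3 = t * u 3)
    (h4 : c 4 = t * u 4)
    (h5 : c 5 = t * u 5)
    (h6 : c 6 = t * u 6)
    (h7 : c 7 = t * u 7)
    (h8 : c 8 = t * u 8)
    (h9 : c 9 = t * u 9) :
    PS c = t ^ 2 * (-144 * t ^ 2 * u 0 * u 3 * u 7 * u 9 + 48 * t ^ 2 * u 0 * u 3 * u 8 ^ 2
      + 216 * t ^ 2 * u 0 * u 4 * u 6 * u 9 - 24 * t ^ 2 * u 0 * u 4 * u 7 * u 8
      - 144 * t ^ 2 * u 0 * u 5 * u 6 * u 8 + 48 * t ^ 2 * u 0 * u 5 * u 7 ^ 2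
      + 48 * t ^ 2 * u 1 ^ 2 * u 7 * u 9 - 16 * t ^ 2 * u 1 ^ 2 * u 8 ^ 2 - 144 * t * u 1 * w * u 6 * u 9
      + 16 * t * u 1 * w * u 7 * u 8 - 24 * t ^ 2 * u 1 * u 3 * u 4 * u 9
      + 16 * t ^ 2 * u 1 * u 3 * u 5 * u 8 + 8 * t ^ 2 * u 1 * u 4 ^ 2 * u 8
      - 24 * t ^ 2 * u 1 * u 4 * u 5 * u 7 + 48 * t ^ 2 * u 1 * u 5 ^ 2 * u 6 + 48 * w ^ 2 * u 6 * u 8
      - 16 * w ^ 2 * u 7 ^ 2 + 48 * t * w * u 3 ^ 2 * u 9 - 24 * t * w * u 3 * u 4 * u 8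
      + 16 * t * w * u 3 * u 5 * u 7 + 8 * t * w * u 4 ^ 2 * u 7 - 24 * t * w * u 4 * u 5 * u 6
      - 16 * t ^ 2 * u 3 ^ 2 * u 5 ^ 2 + 8 * t ^ 2 * u 3 * u 4 ^ 2 * u 5 - t ^ 2 * u 4 ^ 4) := by
  unfold PS
  rw [h0, h1, h2, h3, h4, h5, h6, h7, h8, h9]
  ring

lemma PS_dvd9 {c u : Fin 10 → R} {t w : R}
    (h0 : c 0 = t * u 0)
    (h1 : c 1 = t * u 1)
    (h2 : c 2 = t * u 2)
    (h3 : c 3 = t * u 3)
    (h4 : c 4 = t * u 4)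
    (h5 : c 5 = t * u 5)
    (h6 : c 6 = t * u 6)
    (h7 : c 7 = t * u 7)
    (h8 : c 8 = t * u 8)
    (h9 : c 9 = w) :
    PS c = t ^ 2 * (-144 * t * u 0 * u 3 * u 7 * w + 48 * t ^ 2 * u 0 * u 3 * u 8 ^ 2 + 216 * t * u 0 * u 4 * u 6 * w
      - 24 * t ^ 2 * u 0 * u 4 * u 7 * u 8 - 144 * t ^ 2 * u 0 * u 5 * u 6 * u 8
      + 48 * t ^ 2 * u 0 * u 5 * u 7 ^ 2 + 48 * t * u 1 ^ 2 * u 7 * w - 16 * t ^ 2 * u 1 ^ 2 * u 8 ^ 2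
      - 144 * t * u 1 * u 2 * u 6 * w + 16 * t ^ 2 * u 1 * u 2 * u 7 * u 8 - 24 * t * u 1 * u 3 * u 4 * w
      + 16 * t ^ 2 * u 1 * u 3 * u 5 * u 8 + 8 * t ^ 2 * u 1 * u 4 ^ 2 * u 8
      - 24 * t ^ 2 * u 1 * u 4 * u 5 * u 7 + 48 * t ^ 2 * u 1 * u 5 ^ 2 * u 6
      + 48 * t ^ 2 * u 2 ^ 2 * u 6 * u 8 - 16 * t ^ 2 * u 2 ^ 2 * u 7 ^ 2 + 48 * t * u 2 * u 3 ^ 2 * w
      - 24 * t ^ 2 * u 2 * u 3 * u 4 * u 8 + 16 * t ^ 2 * u 2 * u 3 * u 5 * u 7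
      + 8 * t ^ 2 * u 2 * u 4 ^ 2 * u 7 - 24 * t ^ 2 * u 2 * u 4 * u 5 * u 6
      - 16 * t ^ 2 * u 3 ^ 2 * u 5 ^ 2 + 8 * t ^ 2 * u 3 * u 4 ^ 2 * u 5 - t ^ 2 * u 4 ^ 4) := by
  unfold PS
  rw [h0, h1, h2, h3, h4, h5, h6, h7, h8, h9]
  ring

lemma PT_dvd2 {c u : Fin 10 → R} {t w : R}
    (h0 : c 0 = t * u 0)
    (h1 : c 1 = t * u 1)
    (h2 : c 2 = w)
    (h3 : c 3 = t * u 3)
    (h4 : c 4 = t * u 4)
    (h5 : c 5 = t * u 5)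
    (h6 : c 6 = t * u 6)
    (h7 : c 7 = t * u 7)
    (h8 : c 8 = t * u 8)
    (h9 : c 9 = t * u 9) :
    PT c = t ^ 3 * (-5832 * t ^ 3 * u 0 ^ 2 * u 6 ^ 2 * u 9 ^ 2 + 3888 * t ^ 3 * u 0 ^ 2 * u 6 * u 7 * u 8 * u 9
      - 864 * t ^ 3 * u 0 ^ 2 * u 6 * u 8 ^ 3 - 864 * t ^ 3 * u 0 ^ 2 * u 7 ^ 3 * u 9
      + 216 * t ^ 3 * u 0 ^ 2 * u 7 ^ 2 * u 8 ^ 2 + 3888 * t ^ 3 * u 0 * u 1 * u 3 * u 6 * u 9 ^ 2
      - 1296 * t ^ 3 * u 0 * u 1 * u 3 * u 7 * u 8 * u 9 + 288 * t ^ 3 * u 0 * u 1 * u 3 * u 8 ^ 3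
      - 1296 * t ^ 3 * u 0 * u 1 * u 4 * u 6 * u 8 * u 9 + 864 * t ^ 3 * u 0 * u 1 * u 4 * u 7 ^ 2 * u 9
      - 144 * t ^ 3 * u 0 * u 1 * u 4 * u 7 * u 8 ^ 2 - 1296 * t ^ 3 * u 0 * u 1 * u 5 * u 6 * u 7 * u 9
      + 864 * t ^ 3 * u 0 * u 1 * u 5 * u 6 * u 8 ^ 2 - 144 * t ^ 3 * u 0 * u 1 * u 5 * u 7 ^ 2 * u 8
      - 1296 * t ^ 2 * u 0 * w * u 3 * u 6 * u 8 * u 9 + 864 * t ^ 2 * u 0 * w * u 3 * u 7 ^ 2 * u 9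
      - 144 * t ^ 2 * u 0 * w * u 3 * u 7 * u 8 ^ 2 - 1296 * t ^ 2 * u 0 * w * u 4 * u 6 * u 7 * u 9
      + 864 * t ^ 2 * u 0 * w * u 4 * u 6 * u 8 ^ 2 - 144 * t ^ 2 * u 0 * w * u 4 * u 7 ^ 2 * u 8
      + 3888 * t ^ 2 * u 0 * w * u 5 * u 6 ^ 2 * u 9 - 1296 * t ^ 2 * u 0 * w * u 5 * u 6 * u 7 * u 8
      + 288 * t ^ 2 * u 0 * w * u 5 * u 7 ^ 3 - 864 * t ^ 3 * u 0 * u 3 ^ 3 * u 9 ^ 2
      + 864 * t ^ 3 * u 0 * u 3 ^ 2 * u 4 * u 8 * u 9 + 864 * t ^ 3 * u 0 * u 3 ^ 2 * u 5 * u 7 * u 9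
      - 576 * t ^ 3 * u 0 * u 3 ^ 2 * u 5 * u 8 ^ 2 - 648 * t ^ 3 * u 0 * u 3 * u 4 ^ 2 * u 7 * u 9
      - 72 * t ^ 3 * u 0 * u 3 * u 4 ^ 2 * u 8 ^ 2 - 1296 * t ^ 3 * u 0 * u 3 * u 4 * u 5 * u 6 * u 9
      + 720 * t ^ 3 * u 0 * u 3 * u 4 * u 5 * u 7 * u 8 + 864 * t ^ 3 * u 0 * u 3 * u 5 ^ 2 * u 6 * u 8
      - 576 * t ^ 3 * u 0 * u 3 * u 5 ^ 2 * u 7 ^ 2 + 540 * t ^ 3 * u 0 * u 4 ^ 3 * u 6 * u 9
      + 36 * t ^ 3 * u 0 * u 4 ^ 3 * u 7 * u 8 - 648 * t ^ 3 * u 0 * u 4 ^ 2 * u 5 * u 6 * u 8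
      - 72 * t ^ 3 * u 0 * u 4 ^ 2 * u 5 * u 7 ^ 2 + 864 * t ^ 3 * u 0 * u 4 * u 5 ^ 2 * u 6 * u 7
      - 864 * t ^ 3 * u 0 * u 5 ^ 3 * u 6 ^ 2 - 864 * t ^ 3 * u 1 ^ 3 * u 6 * u 9 ^ 2
      + 288 * t ^ 3 * u 1 ^ 3 * u 7 * u 8 * u 9 - 64 * t ^ 3 * u 1 ^ 3 * u 8 ^ 3
      + 864 * t ^ 2 * u 1 ^ 2 * w * u 6 * u 8 * u 9 - 576 * t ^ 2 * u 1 ^ 2 * w * u 7 ^ 2 * u 9
      + 96 * t ^ 2 * u 1 ^ 2 * w * u 7 * u 8 ^ 2 + 216 * t ^ 3 * u 1 ^ 2 * u 3 ^ 2 * u 9 ^ 2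
      - 144 * t ^ 3 * u 1 ^ 2 * u 3 * u 4 * u 8 * u 9 - 144 * t ^ 3 * u 1 ^ 2 * u 3 * u 5 * u 7 * u 9
      + 96 * t ^ 3 * u 1 ^ 2 * u 3 * u 5 * u 8 ^ 2 - 72 * t ^ 3 * u 1 ^ 2 * u 4 ^ 2 * u 7 * u 9
      + 48 * t ^ 3 * u 1 ^ 2 * u 4 ^ 2 * u 8 ^ 2 + 864 * t ^ 3 * u 1 ^ 2 * u 4 * u 5 * u 6 * u 9
      - 144 * t ^ 3 * u 1 ^ 2 * u 4 * u 5 * u 7 * u 8 - 576 * t ^ 3 * u 1 ^ 2 * u 5 ^ 2 * u 6 * u 8
      + 216 * t ^ 3 * u 1 ^ 2 * u 5 ^ 2 * u 7 ^ 2 + 864 * t * u 1 * w ^ 2 * u 6 * u 7 * u 9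
      - 576 * t * u 1 * w ^ 2 * u 6 * u 8 ^ 2 + 96 * t * u 1 * w ^ 2 * u 7 ^ 2 * u 8
      - 144 * t ^ 2 * u 1 * w * u 3 ^ 2 * u 8 * u 9 + 720 * t ^ 2 * u 1 * w * u 3 * u 4 * u 7 * u 9
      - 144 * t ^ 2 * u 1 * w * u 3 * u 4 * u 8 ^ 2 - 1296 * t ^ 2 * u 1 * w * u 3 * u 5 * u 6 * u 9
      + 48 * t ^ 2 * u 1 * w * u 3 * u 5 * u 7 * u 8 - 648 * t ^ 2 * u 1 * w * u 4 ^ 2 * u 6 * u 9
      + 24 * t ^ 2 * u 1 * w * u 4 ^ 2 * u 7 * u 8 + 720 * t ^ 2 * u 1 * w * u 4 * u 5 * u 6 * u 8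
      - 144 * t ^ 2 * u 1 * w * u 4 * u 5 * u 7 ^ 2 - 144 * t ^ 2 * u 1 * w * u 5 ^ 2 * u 6 * u 7
      - 144 * t ^ 3 * u 1 * u 3 ^ 2 * u 4 * u 5 * u 9 + 96 * t ^ 3 * u 1 * u 3 ^ 2 * u 5 ^ 2 * u 8
      + 36 * t ^ 3 * u 1 * u 3 * u 4 ^ 3 * u 9 + 24 * t ^ 3 * u 1 * u 3 * u 4 ^ 2 * u 5 * u 8
      - 144 * t ^ 3 * u 1 * u 3 * u 4 * u 5 ^ 2 * u 7 + 288 * t ^ 3 * u 1 * u 3 * u 5 ^ 3 * u 6
      - 12 * t ^ 3 * u 1 * u 4 ^ 4 * u 8 + 36 * t ^ 3 * u 1 * u 4 ^ 3 * u 5 * u 7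
      - 72 * t ^ 3 * u 1 * u 4 ^ 2 * u 5 ^ 2 * u 6 - 864 * w ^ 3 * u 6 ^ 2 * u 9
      + 288 * w ^ 3 * u 6 * u 7 * u 8 - 64 * w ^ 3 * u 7 ^ 3 - 576 * t * w ^ 2 * u 3 ^ 2 * u 7 * u 9
      + 216 * t * w ^ 2 * u 3 ^ 2 * u 8 ^ 2 + 864 * t * w ^ 2 * u 3 * u 4 * u 6 * u 9
      - 144 * t * w ^ 2 * u 3 * u 4 * u 7 * u 8 - 144 * t * w ^ 2 * u 3 * u 5 * u 6 * u 8
      + 96 * t * w ^ 2 * u 3 * u 5 * u 7 ^ 2 - 72 * t * w ^ 2 * u 4 ^ 2 * u 6 * u 8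
      + 48 * t * w ^ 2 * u 4 ^ 2 * u 7 ^ 2 - 144 * t * w ^ 2 * u 4 * u 5 * u 6 * u 7
      + 216 * t * w ^ 2 * u 5 ^ 2 * u 6 ^ 2 + 288 * t ^ 2 * w * u 3 ^ 3 * u 5 * u 9
      - 72 * t ^ 2 * w * u 3 ^ 2 * u 4 ^ 2 * u 9 - 144 * t ^ 2 * w * u 3 ^ 2 * u 4 * u 5 * u 8
      + 96 * t ^ 2 * w * u 3 ^ 2 * u 5 ^ 2 * u 7 + 36 * t ^ 2 * w * u 3 * u 4 ^ 3 * u 8
      + 24 * t ^ 2 * w * u 3 * u 4 ^ 2 * u 5 * u 7 - 144 * t ^ 2 * w * u 3 * u 4 * u 5 ^ 2 * u 6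
      - 12 * t ^ 2 * w * u 4 ^ 4 * u 7 + 36 * t ^ 2 * w * u 4 ^ 3 * u 5 * u 6
      - 64 * t ^ 3 * u 3 ^ 3 * u 5 ^ 3 + 48 * t ^ 3 * u 3 ^ 2 * u 4 ^ 2 * u 5 ^ 2
      - 12 * t ^ 3 * u 3 * u 4 ^ 4 * u 5 + t ^ 3 * u 4 ^ 6) := by
  unfold PT
  rw [h0, h1, h2, h3, h4, h5, h6, h7, h8, h9]
  ring

lemma PT_dvd9 {c u : Fin 10 → R} {t w : R}
    (h0 : c 0 = t * u 0)
    (h1 : c 1 = t * u 1)
    (h2 : c 2 = t * u 2)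
    (h3 : c 3 = t * u 3)
    (h4 : c 4 = t * u 4)
    (h5 : c 5 = t * u 5)
    (h6 : c 6 = t * u 6)
    (h7 : c 7 = t * u 7)
    (h8 : c 8 = t * u 8)
    (h9 : c 9 = w) :
    PT c = t ^ 3 * (-5832 * t * u 0 ^ 2 * u 6 ^ 2 * w ^ 2 + 3888 * t ^ 2 * u 0 ^ 2 * u 6 * u 7 * u 8 * w
      - 864 * t ^ 3 * u 0 ^ 2 * u 6 * u 8 ^ 3 - 864 * t ^ 2 * u 0 ^ 2 * u 7 ^ 3 * w
      + 216 * t ^ 3 * u 0 ^ 2 * u 7 ^ 2 * u 8 ^ 2 + 3888 * t * u 0 * u 1 * u 3 * u 6 * w ^ 2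
      - 1296 * t ^ 2 * u 0 * u 1 * u 3 * u 7 * u 8 * w + 288 * t ^ 3 * u 0 * u 1 * u 3 * u 8 ^ 3
      - 1296 * t ^ 2 * u 0 * u 1 * u 4 * u 6 * u 8 * w + 864 * t ^ 2 * u 0 * u 1 * u 4 * u 7 ^ 2 * w
      - 144 * t ^ 3 * u 0 * u 1 * u 4 * u 7 * u 8 ^ 2 - 1296 * t ^ 2 * u 0 * u 1 * u 5 * u 6 * u 7 * w
      + 864 * t ^ 3 * u 0 * u 1 * u 5 * u 6 * u 8 ^ 2 - 144 * t ^ 3 * u 0 * u 1 * u 5 * u 7 ^ 2 * u 8
      - 1296 * t ^ 2 * u 0 * u 2 * u 3 * u 6 * u 8 * w + 864 * t ^ 2 * u 0 * u 2 * u 3 * u 7 ^ 2 * w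
      - 144 * t ^ 3 * u 0 * u 2 * u 3 * u 7 * u 8 ^ 2 - 1296 * t ^ 2 * u 0 * u 2 * u 4 * u 6 * u 7 * w
      + 864 * t ^ 3 * u 0 * u 2 * u 4 * u 6 * u 8 ^ 2 - 144 * t ^ 3 * u 0 * u 2 * u 4 * u 7 ^ 2 * u 8
      + 3888 * t ^ 2 * u 0 * u 2 * u 5 * u 6 ^ 2 * w - 1296 * t ^ 3 * u 0 * u 2 * u 5 * u 6 * u 7 * u 8
      + 288 * t ^ 3 * u 0 * u 2 * u 5 * u 7 ^ 3 - 864 * t * u 0 * u 3 ^ 3 * w ^ 2
      + 864 * t ^ 2 * u 0 * u 3 ^ 2 * u 4 * u 8 * w + 864 * t ^ 2 * u 0 * u 3 ^ 2 * u 5 * u 7 * w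
      - 576 * t ^ 3 * u 0 * u 3 ^ 2 * u 5 * u 8 ^ 2 - 648 * t ^ 2 * u 0 * u 3 * u 4 ^ 2 * u 7 * w
      - 72 * t ^ 3 * u 0 * u 3 * u 4 ^ 2 * u 8 ^ 2 - 1296 * t ^ 2 * u 0 * u 3 * u 4 * u 5 * u 6 * w
      + 720 * t ^ 3 * u 0 * u 3 * u 4 * u 5 * u 7 * u 8 + 864 * t ^ 3 * u 0 * u 3 * u 5 ^ 2 * u 6 * u 8
      - 576 * t ^ 3 * u 0 * u 3 * u 5 ^ 2 * u 7 ^ 2 + 540 * t ^ 2 * u 0 * u 4 ^ 3 * u 6 * w
      + 36 * t ^ 3 * u 0 * u 4 ^ 3 * u 7 * u 8 - 648 * t ^ 3 * u 0 * u 4 ^ 2 * u 5 * u 6 * u 8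
      - 72 * t ^ 3 * u 0 * u 4 ^ 2 * u 5 * u 7 ^ 2 + 864 * t ^ 3 * u 0 * u 4 * u 5 ^ 2 * u 6 * u 7
      - 864 * t ^ 3 * u 0 * u 5 ^ 3 * u 6 ^ 2 - 864 * t * u 1 ^ 3 * u 6 * w ^ 2
      + 288 * t ^ 2 * u 1 ^ 3 * u 7 * u 8 * w - 64 * t ^ 3 * u 1 ^ 3 * u 8 ^ 3
      + 864 * t ^ 2 * u 1 ^ 2 * u 2 * u 6 * u 8 * w - 576 * t ^ 2 * u 1 ^ 2 * u 2 * u 7 ^ 2 * w
      + 96 * t ^ 3 * u 1 ^ 2 * u 2 * u 7 * u 8 ^ 2 + 216 * t * u 1 ^ 2 * u 3 ^ 2 * w ^ 2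
      - 144 * t ^ 2 * u 1 ^ 2 * u 3 * u 4 * u 8 * w - 144 * t ^ 2 * u 1 ^ 2 * u 3 * u 5 * u 7 * w
      + 96 * t ^ 3 * u 1 ^ 2 * u 3 * u 5 * u 8 ^ 2 - 72 * t ^ 2 * u 1 ^ 2 * u 4 ^ 2 * u 7 * w
      + 48 * t ^ 3 * u 1 ^ 2 * u 4 ^ 2 * u 8 ^ 2 + 864 * t ^ 2 * u 1 ^ 2 * u 4 * u 5 * u 6 * w
      - 144 * t ^ 3 * u 1 ^ 2 * u 4 * u 5 * u 7 * u 8 - 576 * t ^ 3 * u 1 ^ 2 * u 5 ^ 2 * u 6 * u 8
      + 216 * t ^ 3 * u 1 ^ 2 * u 5 ^ 2 * u 7 ^ 2 + 864 * t ^ 2 * u 1 * u 2 ^ 2 * u 6 * u 7 * w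
      - 576 * t ^ 3 * u 1 * u 2 ^ 2 * u 6 * u 8 ^ 2 + 96 * t ^ 3 * u 1 * u 2 ^ 2 * u 7 ^ 2 * u 8
      - 144 * t ^ 2 * u 1 * u 2 * u 3 ^ 2 * u 8 * w + 720 * t ^ 2 * u 1 * u 2 * u 3 * u 4 * u 7 * w
      - 144 * t ^ 3 * u 1 * u 2 * u 3 * u 4 * u 8 ^ 2 - 1296 * t ^ 2 * u 1 * u 2 * u 3 * u 5 * u 6 * w
      + 48 * t ^ 3 * u 1 * u 2 * u 3 * u 5 * u 7 * u 8 - 648 * t ^ 2 * u 1 * u 2 * u 4 ^ 2 * u 6 * w
      + 24 * t ^ 3 * u 1 * u 2 * u 4 ^ 2 * u 7 * u 8 + 720 * t ^ 3 * u 1 * u 2 * u 4 * u 5 * u 6 * u 8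
      - 144 * t ^ 3 * u 1 * u 2 * u 4 * u 5 * u 7 ^ 2 - 144 * t ^ 3 * u 1 * u 2 * u 5 ^ 2 * u 6 * u 7
      - 144 * t ^ 2 * u 1 * u 3 ^ 2 * u 4 * u 5 * w + 96 * t ^ 3 * u 1 * u 3 ^ 2 * u 5 ^ 2 * u 8
      + 36 * t ^ 2 * u 1 * u 3 * u 4 ^ 3 * w + 24 * t ^ 3 * u 1 * u 3 * u 4 ^ 2 * u 5 * u 8
      - 144 * t ^ 3 * u 1 * u 3 * u 4 * u 5 ^ 2 * u 7 + 288 * t ^ 3 * u 1 * u 3 * u 5 ^ 3 * u 6
      - 12 * t ^ 3 * u 1 * u 4 ^ 4 * u 8 + 36 * t ^ 3 * u 1 * u 4 ^ 3 * u 5 * u 7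
      - 72 * t ^ 3 * u 1 * u 4 ^ 2 * u 5 ^ 2 * u 6 - 864 * t ^ 2 * u 2 ^ 3 * u 6 ^ 2 * w
      + 288 * t ^ 3 * u 2 ^ 3 * u 6 * u 7 * u 8 - 64 * t ^ 3 * u 2 ^ 3 * u 7 ^ 3
      - 576 * t ^ 2 * u 2 ^ 2 * u 3 ^ 2 * u 7 * w + 216 * t ^ 3 * u 2 ^ 2 * u 3 ^ 2 * u 8 ^ 2
      + 864 * t ^ 2 * u 2 ^ 2 * u 3 * u 4 * u 6 * w - 144 * t ^ 3 * u 2 ^ 2 * u 3 * u 4 * u 7 * u 8
      - 144 * t ^ 3 * u 2 ^ 2 * u 3 * u 5 * u 6 * u 8 + 96 * t ^ 3 * u 2 ^ 2 * u 3 * u 5 * u 7 ^ 2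
      - 72 * t ^ 3 * u 2 ^ 2 * u 4 ^ 2 * u 6 * u 8 + 48 * t ^ 3 * u 2 ^ 2 * u 4 ^ 2 * u 7 ^ 2
      - 144 * t ^ 3 * u 2 ^ 2 * u 4 * u 5 * u 6 * u 7 + 216 * t ^ 3 * u 2 ^ 2 * u 5 ^ 2 * u 6 ^ 2
      + 288 * t ^ 2 * u 2 * u 3 ^ 3 * u 5 * w - 72 * t ^ 2 * u 2 * u 3 ^ 2 * u 4 ^ 2 * w
      - 144 * t ^ 3 * u 2 * u 3 ^ 2 * u 4 * u 5 * u 8 + 96 * t ^ 3 * u 2 * u 3 ^ 2 * u 5 ^ 2 * u 7
      + 36 * t ^ 3 * u 2 * u 3 * u 4 ^ 3 * u 8 + 24 * t ^ 3 * u 2 * u 3 * u 4 ^ 2 * u 5 * u 7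
      - 144 * t ^ 3 * u 2 * u 3 * u 4 * u 5 ^ 2 * u 6 - 12 * t ^ 3 * u 2 * u 4 ^ 4 * u 7
      + 36 * t ^ 3 * u 2 * u 4 ^ 3 * u 5 * u 6 - 64 * t ^ 3 * u 3 ^ 3 * u 5 ^ 3
      + 48 * t ^ 3 * u 3 ^ 2 * u 4 ^ 2 * u 5 ^ 2 - 12 * t ^ 3 * u 3 * u 4 ^ 4 * u 5 + t ^ 3 * u 4 ^ 6) := by
  unfold PT
  rw [h0, h1, h2, h3, h4, h5, h6, h7, h8, h9]
  ring

lemma PS_smul (t : R) (c : Fin 10 → R) : PS (fun i => t * c i) = t ^ 4 * PS c := by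
  unfold PS
  ring

lemma PT_smul (t : R) (c : Fin 10 → R) : PT (fun i => t * c i) = t ^ 6 * PT c := by
  unfold PT
  ring

lemma PS_map {S : Type*} [CommRing S] (f : R →+* S) (c : Fin 10 → R) : PS (fun i => f (c i)) = f (PS c) := by
  unfold PS
  simp only [map_add, map_sub, map_mul, map_pow, map_neg, map_ofNat]

lemma PT_map {S : Type*} [CommRing S] (f : R →+* S) (c : Fin 10 → R) : PT (fun i => f (c i)) = f (PT c) := by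
  unfold PT
  simp only [map_add, map_sub, map_mul, map_pow, map_neg, map_ofNat]

/-- The coefficients of `Z a²` for a linear form `a`. -/
def sqz (a : Fin 3 → R) : Fin 10 → R :=
  ![0, 0, a 0 ^ 2, 0, 2 * a 0 * a 1, 2 * a 0 * a 2, 0, a 1 ^ 2, 2 * a 1 * a 2, a 2 ^ 2]

lemma cub_sqz (a : Fin 3 → R) (x y z : R) : cub (sqz a) x y z = z * (a 0 * x + a 1 * y + a 2 * z) ^ 2 := by
  have h0 : sqz a 0 = 0 := rfl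
  have h1 : sqz a 1 = 0 := rfl
  have h2 : sqz a 2 = a 0 ^ 2 := rfl
  have h3 : sqz a 3 = 0 := rfl
  have h4 : sqz a 4 = 2 * a 0 * a 1 := rfl
  have h5 : sqz a 5 = 2 * a 0 * a 2 := rfl
  have h6 : sqz a 6 = 0 := rfl
  have h7 : sqz a 7 = a 1 ^ 2 := rfl
  have h8 : sqz a 8 = 2 * a 1 * a 2 := rfl
  have h9 : sqz a 9 = a 2 ^ 2 := rfl
  unfold cub
  rw [h0, h1, h2, h3, h4, h5, h6, h7, h8, h9]
  ring

lemma act_sub (c d : Fin 10 → R) (N : Matrix (Fin 3) (Fin 3) R) :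
    act (fun i => c i - d i) N = fun i => act c N i - act d N i := by
  funext i
  fin_cases i <;>
  simp [act, pull, cub, dcub, mcub] <;> ring

lemma act_sqz (a : Fin 3 → R) (p q r u v w : R) : act (sqz a) !![p, q, r; u, v, w; 0, 0, 1] =
    sqz ![a 0 * p + a 1 * u, a 0 * q + a 1 * v, a 0 * r + a 1 * w + a 2] := by
  funext i
  fin_cases i <;>
  simp [act, pull, cub, dcub, mcub, sqz] <;> ring

end ring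

section field

open Polynomial

variable {k : Type*} [Field k]

set_option maxRecDepth 100000 in
lemma at_zero_X (u : Fin 10 → k[X]) : ∃ S' T' : k[X], PS (fun i => X * u i - C (sqz ![(1 : k), 0, 0] i)) = X ^ 2 * S' ∧
    PT (fun i => X * u i - C (sqz ![(1 : k), 0, 0] i)) = X ^ 3 * T' := by
  have h : ∀ i : Fin 10, i ≠ 2 → X * u i - C (sqz ![(1 : k), 0, 0] i) = X * u i := by
    intro i hi
    have : sqz ![(1 : k), 0, 0] i = 0 := by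
      fin_cases i <;> simp [sqz] <;> exact absurd rfl hi
    rw [this, C_0, sub_zero]
  exact ⟨_, _, PS_dvd2 (u := u) (t := X) (w := _) (h 0 (by decide)) (h 1 (by decide)) rfl (h 3 (by decide))
    (h 4 (by decide)) (h 5 (by decide)) (h 6 (by decide)) (h 7 (by decide)) (h 8 (by decide)) (h 9 (by decide)),
    PT_dvd2 (u := u) (t := X) (w := _) (h 0 (by decide)) (h 1 (by decide)) rfl (h 3 (by decide))
    (h 4 (by decide)) (h 5 (by decide)) (h 6 (by decide)) (h 7 (by decide)) (h 8 (by decide)) (h 9 (by decide))⟩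

set_option maxRecDepth 100000 in
lemma at_zero_Z (u : Fin 10 → k[X]) (e : k) : ∃ S' T' : k[X],
    PS (fun i => X * u i - C (sqz ![(0 : k), 0, e] i)) = X ^ 2 * S' ∧
    PT (fun i => X * u i - C (sqz ![(0 : k), 0, e] i)) = X ^ 3 * T' := by
  have h : ∀ i : Fin 10, i ≠ 9 → X * u i - C (sqz ![(0 : k), 0, e] i) = X * u i := by
    intro i hi
    have : sqz ![(0 : k), 0, e] i = 0 := by
      fin_cases i <;> simp [sqz] <;> exact absurd rfl hi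
    rw [this, C_0, sub_zero]
  exact ⟨_, _, PS_dvd9 (u := u) (t := X) (w := _) (h 0 (by decide)) (h 1 (by decide)) (h 2 (by decide)) (h 3 (by decide))
    (h 4 (by decide)) (h 5 (by decide)) (h 6 (by decide)) (h 7 (by decide)) (h 8 (by decide)) rfl,
    PT_dvd9 (u := u) (t := X) (w := _) (h 0 (by decide)) (h 1 (by decide)) (h 2 (by decide)) (h 3 (by decide))
    (h 4 (by decide)) (h 5 (by decide)) (h 6 (by decide)) (h 7 (by decide)) (h 8 (by decide)) rfl⟩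

lemma at_zero_aux (u : Fin 10 → k[X]) (a : Fin 3 → k) (p q r x v w : k)
    (hN : (!![p, q, r; x, v, w; 0, 0, 1] : Matrix (Fin 3) (Fin 3) k).det ≠ 0)
    (h0 : a 0 * p + a 1 * x = 1) (h1 : a 0 * q + a 1 * v = 0) (h2 : a 0 * r + a 1 * w + a 2 = 0) :
    ∃ S' T' : k[X], PS (fun i => X * u i - C (sqz a i)) = X ^ 2 * S' ∧
    PT (fun i => X * u i - C (sqz a i)) = X ^ 3 * T' := by
  obtain ⟨N, hNe⟩ : ∃ N : Matrix (Fin 3) (Fin 3) k, N = !![p, q, r; x, v, w; 0, 0, 1] := ⟨_, rfl⟩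
  rw [← hNe] at hN
  have e : act (fun i => X * u i - C (sqz a i)) (N.map (algebraMap k k[X])) =
      fun i => X * act u (N.map (algebraMap k k[X])) i - C (sqz ![(1 : k), 0, 0] i) := by
    rw [act_sub, act_smul]
    have e1 : act (fun i => C (sqz a i)) (N.map (algebraMap k k[X])) = fun i => C (act (sqz a) N i) := by
      rw [← act_map]
      rfl
    have e2 : act (sqz a) N = sqz ![(1 : k), 0, 0] := by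
      rw [hNe, act_sqz, h0, h1, h2]
    rw [e1, e2]
  obtain ⟨S', T', hS, hT⟩ := at_zero_X (act u (N.map (algebraMap k k[X])))
  have hS2 := PS_act (fun i => X * u i - C (sqz a i)) N
  have hT2 := PT_act (fun i => X * u i - C (sqz a i)) N
  rw [e, hS] at hS2
  rw [e, hT] at hT2
  have hc : ∀ n : ℕ, C ((N.det⁻¹) ^ n) * (algebraMap k k[X] N.det) ^ n = 1 := by
    intro n
    rw [Polynomial.algebraMap_eq, ← C_pow, ← C_mul, ← mul_pow, inv_mul_cancel₀ hN, one_pow, C_1]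
  obtain ⟨P, hP⟩ : ∃ P, P = PS (fun i => X * u i - C (sqz a i)) := ⟨_, rfl⟩
  obtain ⟨Q, hQ⟩ : ∃ Q, Q = PT (fun i => X * u i - C (sqz a i)) := ⟨_, rfl⟩
  rw [← hP] at hS2
  rw [← hQ] at hT2
  rw [← hP, ← hQ]
  refine ⟨C ((N.det⁻¹) ^ 4) * S', C ((N.det⁻¹) ^ 6) * T', ?_, ?_⟩
  · linear_combination -C ((N.det⁻¹) ^ 4) * hS2 - P * hc 4
  · linear_combination -C ((N.det⁻¹) ^ 6) * hT2 - Q * hc 6

theorem at_zero (u : Fin 10 → k[X]) (a : Fin 3 → k) : ∃ S' T' : k[X],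
    PS (fun i => X * u i - C (sqz a i)) = X ^ 2 * S' ∧ PT (fun i => X * u i - C (sqz a i)) = X ^ 3 * T' := by
  by_cases h0 : a 0 = 0
  · by_cases h1 : a 1 = 0
    · have e : a = ![(0 : k), 0, a 2] := by
        funext i
        fin_cases i
        · exact h0
        · exact h1
        · rfl
      rw [e]
      exact at_zero_Z u (a 2)
    · refine at_zero_aux u a 0 1 0 (a 1)⁻¹ 0 (-(a 2) / a 1) ?_ ?_ ?_ ?_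
      · rw [Matrix.det_fin_three]
        simpa using h1
      · rw [h0]
        field_simp
        simp
      · rw [h0]
        simp
      · rw [h0]
        field_simp
        simp
  · refine at_zero_aux u a (a 0)⁻¹ (-(a 1) / a 0) (-(a 2) / a 0) 0 1 0 ?_ ?_ ?_ ?_
    · rw [Matrix.det_fin_three]
      simpa using h0
    · field_simp
      simp
    · field_simp
      simp
    · field_simp
      simp

lemma deg_of_inv [Infinite k] {P A : k[X]} {m : ℕ} (h : ∀ r : k, r ≠ 0 → P.eval r = r ^ m * A.eval r⁻¹) :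
    P.natDegree ≤ m := by
  rcases eq_or_ne P 0 with rfl | hP
  · simp
  have key : P * X ^ A.natDegree = X ^ m * A.reverse := by
    refine eq_of_infinite_eval_eq _ _ (Set.Infinite.mono (s := {r : k | r ≠ 0}) ?_ ?_)
    · intro r hr
      have hr' : r ≠ 0 := hr
      have hi : r⁻¹ ≠ 0 := inv_ne_zero hr'
      let _ := invertibleOfNonzero hi
      have h1 := eval₂_reverse_mul_pow (RingHom.id k) r⁻¹ A
      rw [invOf_eq_inv, inv_inv] at h1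
      have h2 : eval r (reverse A) * (r⁻¹) ^ A.natDegree = eval r⁻¹ A := h1
      show eval r (P * X ^ A.natDegree) = eval r (X ^ m * A.reverse)
      rw [eval_mul, eval_mul, eval_pow, eval_pow, eval_X, h r hr', ← h2]
      have h3 : (r⁻¹) ^ A.natDegree * r ^ A.natDegree = 1 := by
        rw [← mul_pow, inv_mul_cancel₀ hr', one_pow]
      linear_combination r ^ m * eval r (reverse A) * h3
    · have : {r : k | r ≠ 0} = ({0} : Set k)ᶜ := by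
        ext r
        simp
      rw [this]
      exact (Set.finite_singleton (0 : k)).infinite_compl
  have h1 := congrArg natDegree key
  rw [natDegree_mul hP (pow_ne_zero _ X_ne_zero), natDegree_X_pow] at h1
  have h2 : (X ^ m * A.reverse).natDegree ≤ m + A.natDegree := by
    refine natDegree_mul_le.trans ?_
    rw [natDegree_X_pow]
    have := A.reverse_natDegree_le
    omega
  omega

/-- The pencil. -/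
noncomputable def pen (a b : Fin 3 → k) (f g : Fin 10 → k) : Fin 10 → k[X] :=
  fun i => C (sqz b i) * X ^ 3 - C (4 * g i) * X ^ 2 + C (4 * f i) * X - C (sqz a i)

theorem pen_deg [Infinite k] (a b : Fin 3 → k) (f g : Fin 10 → k) : ∃ A B : k[X], A.natDegree ≤ 8 ∧ B.natDegree ≤ 12 ∧
    PS (pen a b f g) = X ^ 2 * A ∧ PT (pen a b f g) = X ^ 3 * B := by
  have e0 : pen a b f g = fun i => X * (C (sqz b i) * X ^ 2 - C (4 * g i) * X + C (4 * f i)) - C (sqz a i) := by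
    funext i
    unfold pen
    ring
  obtain ⟨A, B, hA, hB⟩ := at_zero (fun i => C (sqz b i) * X ^ 2 - C (4 * g i) * X + C (4 * f i)) a
  obtain ⟨A', B', hA', hB'⟩ := at_zero (fun i => C (4 * g i) - C (4 * f i) * X + C (sqz a i) * X ^ 2) b
  rw [← e0] at hA hB
  have hev : ∀ r : k, r ≠ 0 → (fun i => eval r (pen a b f g i)) = fun i => (-r ^ 3) * eval r⁻¹
      (X * (C (4 * g i) - C (4 * f i) * X + C (sqz a i) * X ^ 2) - C (sqz b i)) := by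
    intro r hr
    funext i
    unfold pen
    simp only [eval_add, eval_sub, eval_mul, eval_C, eval_X, eval_pow]
    field_simp
    ring
  have hS : ∀ r : k, r ≠ 0 → (PS (pen a b f g)).eval r = r ^ 10 * A'.eval r⁻¹ := by
    intro r hr
    have h1 : (PS (pen a b f g)).eval r = PS (fun i => eval r (pen a b f g i)) := (PS_map (evalRingHom r) _).symm
    rw [h1, hev r hr, PS_smul]
    have h2 : PS (fun i => eval r⁻¹ (X * (C (4 * g i) - C (4 * f i) * X + C (sqz a i) * X ^ 2) - C (sqz b i))) =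
        eval r⁻¹ (X ^ 2 * A') := by
      rw [← hA']
      exact PS_map (evalRingHom r⁻¹) _
    rw [h2]
    simp only [eval_mul, eval_pow, eval_X]
    field_simp
  have hT : ∀ r : k, r ≠ 0 → (PT (pen a b f g)).eval r = r ^ 15 * B'.eval r⁻¹ := by
    intro r hr
    have h1 : (PT (pen a b f g)).eval r = PT (fun i => eval r (pen a b f g i)) := (PT_map (evalRingHom r) _).symm
    rw [h1, hev r hr, PT_smul]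
    have h2 : PT (fun i => eval r⁻¹ (X * (C (4 * g i) - C (4 * f i) * X + C (sqz a i) * X ^ 2) - C (sqz b i))) =
        eval r⁻¹ (X ^ 3 * B') := by
      rw [← hB']
      exact PT_map (evalRingHom r⁻¹) _
    rw [h2]
    simp only [eval_mul, eval_pow, eval_X]
    field_simp
  have dS := deg_of_inv hS
  have dT := deg_of_inv hT
  refine ⟨A, B, ?_, ?_, hA, hB⟩
  · rcases eq_or_ne A 0 with rfl | h0
    · simp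
    · rw [hA, natDegree_mul (pow_ne_zero _ X_ne_zero) h0, natDegree_X_pow] at dS
      omega
  · rcases eq_or_ne B 0 with rfl | h0
    · simp
    · rw [hB, natDegree_mul (pow_ne_zero _ X_ne_zero) h0, natDegree_X_pow] at dT
      omega

/-- The degrees in any coordinates. -/
theorem pen_deg_act [Infinite k] (a b : Fin 3 → k) (f g : Fin 10 → k) (N : Matrix (Fin 3) (Fin 3) k) :
    ∃ A B : k[X], A.natDegree ≤ 8 ∧ B.natDegree ≤ 12 ∧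
      PS (act (pen a b f g) (N.map (algebraMap k k[X]))) = X ^ 2 * A ∧
      PT (act (pen a b f g) (N.map (algebraMap k k[X]))) = X ^ 3 * B := by
  obtain ⟨A, B, hA, hB, hS, hT⟩ := pen_deg a b f g
  refine ⟨C (N.det ^ 4) * A, C (N.det ^ 6) * B, (natDegree_C_mul_le _ _).trans hA,
    (natDegree_C_mul_le _ _).trans hB, ?_, ?_⟩
  · rw [PS_act, hS, Polynomial.algebraMap_eq, ← C_pow]
    ring
  · rw [PT_act, hT, Polynomial.algebraMap_eq, ← C_pow]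
    ring

end field

end Pool.Agent.Helper83.KPA

end CX
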