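import Mathlib
import Pool.Agent.Helper40.CX.H15KP.Cub
import Pool.Agent.Helper40.CX.H16UP.Krull
import Pool.Agent.Helper40.CX.H83KPA.Cov
import Pool.Agent.Helper40.CX.Good2

namespace CX

/-!
# KP: flexes of plane cubics over an algebraically closed field

A plane cubic has a singular point, or in suitable coordinates it has the form
`c0 X³ + c2 X² Z + c5 X Z² + c7 Y² Z + c8 Y Z² + c9 Z³` with `c0, c7 ≠ 0`. Hence: if the discriminant vanishes there is a
singular point; if there is no singular point there is a transversal line.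
-/

set_option linter.unusedSectionVars false

namespace Pool.Agent.Helper83.KPA

open Pool.Agent.Helper15.KP (PS PT Dsc Dbin)
open Pool.Agent.Helper83.PC (act act_mul pull cub dcub mcub act_one)

section ring

variable {R : Type*} [CommRing R]

/-- The entries of the Hessian matrix (up to scaling the second partial derivatives). -/
def h00 (c : Fin 10 → R) (p : Fin 3 → R) : R := 6 * c 0 * p 0 + 2 * c 1 * p 1 + 2 * c 2 * p 2
def h01 (c : Fin 10 → R) (p : Fin 3 → R) : R := 2 * c 1 * p 0 + 2 * c 3 * p 1 + c 4 * p 2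
def h02 (c : Fin 10 → R) (p : Fin 3 → R) : R := 2 * c 2 * p 0 + c 4 * p 1 + 2 * c 5 * p 2
def h11 (c : Fin 10 → R) (p : Fin 3 → R) : R := 2 * c 3 * p 0 + 6 * c 6 * p 1 + 2 * c 7 * p 2
def h12 (c : Fin 10 → R) (p : Fin 3 → R) : R := c 4 * p 0 + 2 * c 7 * p 1 + 2 * c 8 * p 2
def h22 (c : Fin 10 → R) (p : Fin 3 → R) : R := 2 * c 5 * p 0 + 2 * c 8 * p 1 + 6 * c 9 * p 2

/-- The Hessian determinant. -/
def hes (c : Fin 10 → R) (p : Fin 3 → R) : R :=
  h00 c p * (h11 c p * h22 c p - h12 c p * h12 c p) - h01 c p * (h01 c p * h22 c p - h12 c p * h02 c p) +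
    h02 c p * (h01 c p * h12 c p - h11 c p * h02 c p)

/-- The Hessian matrix. -/
def hmat (c : Fin 10 → R) (p : Fin 3 → R) : Matrix (Fin 3) (Fin 3) R :=
  !![h00 c p, h01 c p, h02 c p; h01 c p, h11 c p, h12 c p; h02 c p, h12 c p, h22 c p]

lemma hmat_det (c : Fin 10 → R) (p : Fin 3 → R) : (hmat c p).det = hes c p := by
  rw [Matrix.det_fin_three]
  simp [hmat, hes]
  ring

lemma mcub_eq (c : Fin 10 → R) (p q r : Fin 3 → R) : mcub c p q r =
    (h00 c p * q 0 + h01 c p * q 1 + h02 c p * q 2) * r 0 + (h01 c p * q 0 + h11 c p * q 1 + h12 c p * q 2) * r 1 +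
      (h02 c p * q 0 + h12 c p * q 1 + h22 c p * q 2) * r 2 := by
  unfold mcub h00 h01 h02 h11 h12 h22
  ring

lemma mcub_ppq (c : Fin 10 → R) (p q : Fin 3 → R) : mcub c p p q = 2 * dcub c p q := by
  unfold mcub dcub
  ring

lemma mcub_qpp (c : Fin 10 → R) (p q : Fin 3 → R) : mcub c q p p = 2 * dcub c p q := by
  unfold mcub dcub
  ring

lemma mcub_pqp (c : Fin 10 → R) (p q : Fin 3 → R) : mcub c p q p = 2 * dcub c p q := by
  unfold mcub dcub
  ring

lemma dcub_pp (c : Fin 10 → R) (p : Fin 3 → R) : dcub c p p = 3 * cub c (p 0) (p 1) (p 2) := by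
  unfold cub dcub
  ring

lemma dcub_vec (c : Fin 10 → R) (a b d : R) (q : Fin 3 → R) : dcub c ![a, b, d] q =
    (3 * c 0 * a ^ 2 + 2 * c 1 * a * b + 2 * c 2 * a * d + c 3 * b ^ 2 + c 4 * b * d + c 5 * d ^ 2) * q 0 +
    (c 1 * a ^ 2 + 2 * c 3 * a * b + c 4 * a * d + 3 * c 6 * b ^ 2 + 2 * c 7 * b * d + c 8 * d ^ 2) * q 1 +
    (c 2 * a ^ 2 + c 4 * a * b + 2 * c 5 * a * d + c 7 * b ^ 2 + 2 * c 8 * b * d + 3 * c 9 * d ^ 2) * q 2 := rfl

/-- The chain rule. -/
lemma dcub_act (c : Fin 10 → R) (N : Matrix (Fin 3) (Fin 3) R) (x y : Fin 3 → R) :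
    dcub (act c N) x y = dcub c (N.mulVec x) (N.mulVec y) := by
  have e : ∀ x : Fin 3 → R, ∀ i, N.mulVec x i = N i 0 * x 0 + N i 1 * x 1 + N i 2 * x 2 := by
    intro x i
    simp [Matrix.mulVec, dotProduct, Fin.sum_univ_three]
  have h0 : act c N 0 = cub c (N 0 0) (N 1 0) (N 2 0) := rfl
  have h1 : act c N 1 = dcub c (fun i => N i 0) (fun i => N i 1) := rfl
  have h2 : act c N 2 = dcub c (fun i => N i 0) (fun i => N i 2) := rfl
  have h3 : act c N 3 = dcub c (fun i => N i 1) (fun i => N i 0) := rfl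
  have h4 : act c N 4 = mcub c (fun i => N i 0) (fun i => N i 1) (fun i => N i 2) := rfl
  have h5 : act c N 5 = dcub c (fun i => N i 2) (fun i => N i 0) := rfl
  have h6 : act c N 6 = cub c (N 0 1) (N 1 1) (N 2 1) := rfl
  have h7 : act c N 7 = dcub c (fun i => N i 1) (fun i => N i 2) := rfl
  have h8 : act c N 8 = dcub c (fun i => N i 2) (fun i => N i 1) := rfl
  have h9 : act c N 9 = cub c (N 0 2) (N 1 2) (N 2 2) := rfl
  unfold dcub at *
  rw [h0, h1, h2, h3, h4, h5, h6, h7, h8, h9, e, e, e, e, e, e]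
  unfold cub mcub
  ring

end ring

section poly

open MvPolynomial

variable {k : Type*} [Field k] [IsAlgClosed k] [Good k]

lemma hom_C (a : k) {n : ℕ} {P : MvPolynomial (Fin 3) k} (h : P.IsHomogeneous n) : (C a * P).IsHomogeneous n := by
  have h1 := (isHomogeneous_C (Fin 3) a).mul h
  rwa [zero_add] at h1

lemma hom_X (i : Fin 3) : (X i : MvPolynomial (Fin 3) k).IsHomogeneous 1 := isHomogeneous_X k i

/-- The form as a polynomial. -/
noncomputable def cubP (c : Fin 10 → k) : MvPolynomial (Fin 3) k :=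
  cub (fun i => C (c i)) (X 0) (X 1) (X 2)

lemma cubP_hom (c : Fin 10 → k) : (cubP c).IsHomogeneous 3 := by
  have x0 := hom_X (k := k) 0
  have x1 := hom_X (k := k) 1
  have x2 := hom_X (k := k) 2
  unfold cubP cub
  refine ((((((((IsHomogeneous.add ?_ ?_).add ?_).add ?_).add ?_).add ?_).add ?_).add ?_).add ?_).add ?_
  · exact hom_C _ (by simpa using x0.pow 3)
  · simpa [mul_assoc] using hom_C (c 1) ((x0.pow 2).mul x1)
  · simpa [mul_assoc] using hom_C (c 2) ((x0.pow 2).mul x2)
  · simpa [mul_assoc] using hom_C (c 3) (x0.mul (x1.pow 2))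
  · simpa [mul_assoc] using hom_C (c 4) (x0.mul (x1.mul x2))
  · simpa [mul_assoc] using hom_C (c 5) (x0.mul (x2.pow 2))
  · exact hom_C _ (by simpa using x1.pow 3)
  · simpa [mul_assoc] using hom_C (c 7) ((x1.pow 2).mul x2)
  · simpa [mul_assoc] using hom_C (c 8) (x1.mul (x2.pow 2))
  · exact hom_C _ (by simpa using x2.pow 3)

lemma hom_lin (a b d : k) : (C a * X 0 + C b * X 1 + C d * X 2 : MvPolynomial (Fin 3) k).IsHomogeneous 1 :=
  ((hom_C a (hom_X 0)).add (hom_C b (hom_X 1))).add (hom_C d (hom_X 2))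

/-- The Hessian as a polynomial. -/
noncomputable def hesP (c : Fin 10 → k) : MvPolynomial (Fin 3) k :=
  hes (fun i => C (c i)) X

lemma hesP_hom (c : Fin 10 → k) : (hesP c).IsHomogeneous 3 := by
  have e00 : (h00 (fun i => C (c i)) X : MvPolynomial (Fin 3) k).IsHomogeneous 1 := by
    have e : (h00 (fun i => C (c i)) X : MvPolynomial (Fin 3) k) =
        C (6 * c 0) * X 0 + C (2 * c 1) * X 1 + C (2 * c 2) * X 2 := by
      simp [h00, map_ofNat]
    rw [e]
    exact hom_lin _ _ _
  have e01 : (h01 (fun i => C (c i)) X : MvPolynomial (Fin 3) k).IsHomogeneous 1 := by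
    have e : (h01 (fun i => C (c i)) X : MvPolynomial (Fin 3) k) =
        C (2 * c 1) * X 0 + C (2 * c 3) * X 1 + C (c 4) * X 2 := by
      simp [h01, map_ofNat]
    rw [e]
    exact hom_lin _ _ _
  have e02 : (h02 (fun i => C (c i)) X : MvPolynomial (Fin 3) k).IsHomogeneous 1 := by
    have e : (h02 (fun i => C (c i)) X : MvPolynomial (Fin 3) k) =
        C (2 * c 2) * X 0 + C (c 4) * X 1 + C (2 * c 5) * X 2 := by
      simp [h02, map_ofNat]
    rw [e]
    exact hom_lin _ _ _
  have e11 : (h11 (fun i => C (c i)) X : MvPolynomial (Fin 3) k).IsHomogeneous 1 := by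
    have e : (h11 (fun i => C (c i)) X : MvPolynomial (Fin 3) k) =
        C (2 * c 3) * X 0 + C (6 * c 6) * X 1 + C (2 * c 7) * X 2 := by
      simp [h11, map_ofNat]
    rw [e]
    exact hom_lin _ _ _
  have e12 : (h12 (fun i => C (c i)) X : MvPolynomial (Fin 3) k).IsHomogeneous 1 := by
    have e : (h12 (fun i => C (c i)) X : MvPolynomial (Fin 3) k) =
        C (c 4) * X 0 + C (2 * c 7) * X 1 + C (2 * c 8) * X 2 := by
      simp [h12, map_ofNat]
    rw [e]
    exact hom_lin _ _ _
  have e22 : (h22 (fun i => C (c i)) X : MvPolynomial (Fin 3) k).IsHomogeneous 1 := by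
    have e : (h22 (fun i => C (c i)) X : MvPolynomial (Fin 3) k) =
        C (2 * c 5) * X 0 + C (2 * c 8) * X 1 + C (6 * c 9) * X 2 := by
      simp [h22, map_ofNat]
    rw [e]
    exact hom_lin _ _ _
  unfold hesP hes
  exact ((e00.mul ((e11.mul e22).sub (e12.mul e12))).sub (e01.mul ((e01.mul e22).sub (e12.mul e02)))).add
    (e02.mul ((e01.mul e12).sub (e11.mul e02)))

lemma eval_cubP (c : Fin 10 → k) (p : Fin 3 → k) : eval p (cubP c) = cub c (p 0) (p 1) (p 2) := by
  unfold cubP cub
  simp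

lemma eval_hesP (c : Fin 10 → k) (p : Fin 3 → k) : eval p (hesP c) = hes c p := by
  unfold hesP hes h00 h01 h02 h11 h12 h22
  simp

/-- A flex. -/
lemma exists_flex (c : Fin 10 → k) : ∃ p : Fin 3 → k, p ≠ 0 ∧ cub c (p 0) (p 1) (p 2) = 0 ∧ hes c p = 0 := by
  obtain ⟨p, hp, h⟩ := Pool.Agent.Helper16.UP.exists_zero (m := 2) ![cubP c, hesP c] ![3, 3]
    (by intro i; fin_cases i <;> simp) (by
      intro i
      fin_cases i
      · exact cubP_hom c
      · exact hesP_hom c)
  refine ⟨p, hp, ?_, ?_⟩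
  · have := h 0
    simpa [eval_cubP] using this
  · have := h 1
    simpa [eval_hesP] using this

end poly

section forms

variable {k : Type*} [Field k] [IsAlgClosed k] [Good k]

/-- Completing to a basis. -/
lemma exists_third {p q : Fin 3 → k} (hp : p ≠ 0) (h : ∀ a : k, q ≠ fun i => a * p i) :
    ∃ r : Fin 3 → k, (Matrix.of ![![q 0, p 0, r 0], ![q 1, p 1, r 1], ![q 2, p 2, r 2]]).det ≠ 0 := by
  by_contra hc
  push Not at hc
  have h0 := hc ![1, 0, 0]
  have h1 := hc ![0, 1, 0]
  have h2 := hc ![0, 0, 1]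
  rw [Matrix.det_fin_three] at h0 h1 h2
  simp at h0 h1 h2
  have hne : p 0 ≠ 0 ∨ p 1 ≠ 0 ∨ p 2 ≠ 0 := by
    by_contra hcon
    push Not at hcon
    apply hp
    funext i
    fin_cases i
    · exact hcon.1
    · exact hcon.2.1
    · exact hcon.2.2
  rcases hne with h3 | h3 | h3
  · apply h (q 0 / p 0)
    funext i
    fin_cases i
    · show q 0 = q 0 / p 0 * p 0
      field_simp
    · show q 1 = q 0 / p 0 * p 1
      field_simp
      linear_combination -h2
    · show q 2 = q 0 / p 0 * p 2
      field_simp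
      linear_combination h1
  · apply h (q 1 / p 1)
    funext i
    fin_cases i
    · show q 0 = q 1 / p 1 * p 0
      field_simp
      linear_combination h2
    · show q 1 = q 1 / p 1 * p 1
      field_simp
    · show q 2 = q 1 / p 1 * p 2
      field_simp
      linear_combination -h0
  · apply h (q 2 / p 2)
    funext i
    fin_cases i
    · show q 0 = q 2 / p 2 * p 0
      field_simp
      linear_combination -h1
    · show q 1 = q 2 / p 2 * p 1
      field_simp
      linear_combination h0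
    · show q 2 = q 2 / p 2 * p 2
      field_simp

/-- A singular point in new coordinates gives a singular point. -/
lemma sing_act {c : Fin 10 → k} {N : Matrix (Fin 3) (Fin 3) k} (hN : N.det ≠ 0) {x : Fin 3 → k} (hx : x ≠ 0)
    (h : ∀ y, dcub (act c N) x y = 0) : ∃ p : Fin 3 → k, p ≠ 0 ∧ ∀ q, dcub c p q = 0 := by
  have hu : IsUnit N.det := isUnit_iff_ne_zero.mpr hN
  refine ⟨N.mulVec x, ?_, ?_⟩
  · intro h0
    apply hx
    have h1 : N⁻¹.mulVec (N.mulVec x) = 0 := by rw [h0, Matrix.mulVec_zero]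
    rwa [Matrix.mulVec_mulVec, Matrix.nonsing_inv_mul _ hu, Matrix.one_mulVec] at h1
  · intro q
    have h1 := h (N⁻¹.mulVec q)
    rwa [dcub_act, Matrix.mulVec_mulVec, Matrix.mul_nonsing_inv _ hu, Matrix.one_mulVec] at h1

/-- The flex form. -/
theorem flex_form (c : Fin 10 → k) : (∃ p : Fin 3 → k, p ≠ 0 ∧ ∀ q, dcub c p q = 0) ∨
    ∃ N : Matrix (Fin 3) (Fin 3) k, N.det ≠ 0 ∧ act c N 1 = 0 ∧ act c N 3 = 0 ∧ act c N 4 = 0 ∧ act c N 6 = 0 ∧
      act c N 0 ≠ 0 ∧ act c N 7 ≠ 0 := by
  obtain ⟨p, hp, hU, hH⟩ := exists_flex c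
  obtain ⟨q, hq, hq2⟩ := Matrix.exists_mulVec_eq_zero_iff.mpr ((hmat_det c p).trans hH)
  have hM : ∀ r, mcub c p q r = 0 := by
    intro r
    rw [mcub_eq]
    have e0 := congrFun hq2 0
    have e1 := congrFun hq2 1
    have e2 := congrFun hq2 2
    simp [hmat, Matrix.mulVec, dotProduct, Fin.sum_univ_three] at e0 e1 e2
    linear_combination r 0 * e0 + r 1 * e1 + r 2 * e2
  have h2 : (2 : k) ≠ 0 := two_ne_zero
  have hdpq : dcub c p q = 0 := by
    have h1 := hM p
    rw [mcub_pqp] at h1
    exact (mul_eq_zero.mp h1).resolve_left h2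
  have hdqp : dcub c q p = 0 := by
    have h1 := hM q
    rw [mcub_qpp] at h1
    exact (mul_eq_zero.mp h1).resolve_left h2
  by_cases hpar : ∃ a : k, q = fun i => a * p i
  · obtain ⟨a, ha⟩ := hpar
    have ha0 : a ≠ 0 := by
      rintro rfl
      apply hq
      rw [ha]
      funext i
      exact zero_mul _
    left
    refine ⟨p, hp, fun r => ?_⟩
    have h1 := hM r
    have h3 : mcub c p q r = a * (2 * dcub c p r) := by
      rw [ha, ← mcub_ppq]
      unfold mcub
      ring
    rw [h3] at h1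
    rcases mul_eq_zero.mp h1 with h4 | h4
    · exact absurd h4 ha0
    · exact (mul_eq_zero.mp h4).resolve_left h2
  · push Not at hpar
    obtain ⟨r, hr⟩ := exists_third hp hpar
    set N : Matrix (Fin 3) (Fin 3) k := Matrix.of ![![q 0, p 0, r 0], ![q 1, p 1, r 1], ![q 2, p 2, r 2]] with hNdef
    have c0 : (fun i => N i 0) = q := by
      funext i
      fin_cases i <;> rfl
    have c1 : (fun i => N i 1) = p := by
      funext i
      fin_cases i <;> rfl
    have c2 : (fun i => N i 2) = r := by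
      funext i
      fin_cases i <;> rfl
    have a0 : act c N 0 = cub c (q 0) (q 1) (q 2) := rfl
    have a1 : act c N 1 = dcub c q p := by
      have : act c N 1 = dcub c (fun i => N i 0) (fun i => N i 1) := rfl
      rw [this, c0, c1]
    have a2 : act c N 2 = dcub c q r := by
      have : act c N 2 = dcub c (fun i => N i 0) (fun i => N i 2) := rfl
      rw [this, c0, c2]
    have a3 : act c N 3 = dcub c p q := by
      have : act c N 3 = dcub c (fun i => N i 1) (fun i => N i 0) := rfl
      rw [this, c0, c1]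
    have a4 : act c N 4 = mcub c q p r := by
      have : act c N 4 = mcub c (fun i => N i 0) (fun i => N i 1) (fun i => N i 2) := rfl
      rw [this, c0, c1, c2]
    have a6 : act c N 6 = cub c (p 0) (p 1) (p 2) := rfl
    have b1 : act c N 1 = 0 := by rw [a1, hdqp]
    have b3 : act c N 3 = 0 := by rw [a3, hdpq]
    have b4 : act c N 4 = 0 := by
      rw [a4, ← hM r]
      unfold mcub
      ring
    have b6 : act c N 6 = 0 := by rw [a6, hU]
    by_cases h0 : act c N 0 = 0
    · left
      by_cases h7 : act c N 7 = 0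
      · refine sing_act (x := ![0, 1, 0]) hr ?_ fun y => ?_
        · intro h
          have := congrFun h 1
          simp at this
        · rw [dcub_vec]
          rw [b6, h7, b3]
          ring
      · obtain ⟨z, hz⟩ := IsAlgClosed.exists_pow_nat_eq (-(act c N 2) / act c N 7) (n := 2) (by norm_num)
        refine sing_act (x := ![1, z, 0]) hr ?_ fun y => ?_
        · intro h
          have := congrFun h 0
          simp at this
        · have hz' : act c N 7 * z ^ 2 = -(act c N 2) := by
            rw [hz]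
            field_simp
          rw [dcub_vec]
          rw [b6, b1, b3, b4, h0]
          linear_combination y 2 * hz'
    · by_cases h7 : act c N 7 = 0
      · left
        refine sing_act (x := ![0, 1, 0]) hr ?_ fun y => ?_
        · intro h
          have := congrFun h 1
          simp at this
        · rw [dcub_vec]
          rw [b6, h7, b3]
          ring
      · right
        exact ⟨N, hr, b1, b3, b4, b6, h0, h7⟩

end forms

end Pool.Agent.Helper83.KPA

end CX
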