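import Mathlib
import Pool.Agent.Helper40.CX.H83KPA.Flex
import Pool.Agent.Helper40.CX.Good2

namespace CX

/-!
# KP: smooth plane cubics: the discriminant does not vanish, and there is a transversal line
-/

set_option linter.unusedSectionVars false

namespace Pool.Agent.Helper83.KPA

open Pool.Agent.Helper15.KP (PS PT Dsc Dbin)
open Pool.Agent.Helper83.PC (act act_mul pull cub dcub mcub act_one)

variable {k : Type*} [Field k] [IsAlgClosed k] [Good k]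

lemma dsc_form {c : Fin 10 → k} (h1 : c 1 = 0) (h3 : c 3 = 0) (h4 : c 4 = 0) (h6 : c 6 = 0) : Dsc c =
    c 7 ^ 4 * (4096 * c 7 ^ 2 * (3 * c 0 * c 5 - c 2 ^ 2) ^ 3 + 64 * (108 * c 0 ^ 2 * c 7 * c 9 -
      27 * c 0 ^ 2 * c 8 ^ 2 - 36 * c 0 * c 2 * c 5 * c 7 + 8 * c 2 ^ 3 * c 7) ^ 2) := by
  unfold Dsc PS PT
  rw [h1, h3, h4, h6]
  ring

/-- If the discriminant vanishes there is a singular point. -/
theorem exists_sing {c : Fin 10 → k} (h : Dsc c = 0) : ∃ p : Fin 3 → k, p ≠ 0 ∧ ∀ q, dcub c p q = 0 := by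
  rcases flex_form c with h1 | ⟨N, hN, h1, h3, h4, h6, h0, h7⟩
  · exact h1
  have hD : Dsc (act c N) = 0 := by
    have e := Dsc_act (k := k) c N
    rw [h, mul_zero] at e
    exact e
  rw [dsc_form h1 h3 h4 h6] at hD
  have hD' := (mul_eq_zero.mp hD).resolve_left (pow_ne_zero _ h7)
  obtain ⟨d, hd⟩ : ∃ d, d = act c N := ⟨_, rfl⟩
  rw [← hd] at h1 h3 h4 h6 h0 h7 hD'
  obtain ⟨z, hz⟩ := IsAlgClosed.exists_pow_nat_eq (d 2 ^ 2 - 3 * d 0 * d 5) (n := 2) (by norm_num)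
  -- the two roots of the derivative
  have key : ∀ x : k, 3 * d 0 * x = -d 2 + z ∨ 3 * d 0 * x = -d 2 - z →
      4 * d 7 * (d 0 * x ^ 3 + d 2 * x ^ 2 + d 5 * x + d 9) = d 8 ^ 2 → ∃ p : Fin 3 → k, p ≠ 0 ∧
      ∀ q, dcub c p q = 0 := by
    intro x hx hg
    have hx' : 3 * d 0 * x ^ 2 + 2 * d 2 * x + d 5 = 0 := by
      have e : (3 * d 0) * (3 * d 0 * x ^ 2 + 2 * d 2 * x + d 5) = 0 := by
        have e1 : (3 * d 0) * (3 * d 0 * x ^ 2 + 2 * d 2 * x + d 5) =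
          (3 * d 0 * x + d 2) ^ 2 - (d 2 ^ 2 - 3 * d 0 * d 5) := by ring
        rw [e1, ← hz]
        rcases hx with h | h <;> rw [h] <;> ring
      exact (mul_eq_zero.mp e).resolve_left (mul_ne_zero three_ne_zero h0)
    refine sing_act (N := N) (x := ![x, -d 8 / (2 * d 7), 1]) hN ?_ fun y => ?_
    · intro h
      have := congrFun h 2
      simp at this
    · rw [dcub_vec, ← hd, h1, h3, h4, h6]
      have h72 : 2 * d 7 ≠ 0 := mul_ne_zero two_ne_zero h7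
      obtain ⟨w, hw⟩ : ∃ w, w = -d 8 / (2 * d 7) := ⟨_, rfl⟩
      have hw' : 2 * d 7 * w = -d 8 := by
        rw [hw]
        field_simp
      rw [← hw]
      have hg' : d 2 * x ^ 2 + 2 * d 5 * x + d 7 * w ^ 2 + 2 * d 8 * w + 3 * d 9 = 0 := by
        have e : (4 * d 7) * (d 2 * x ^ 2 + 2 * d 5 * x + d 7 * w ^ 2 + 2 * d 8 * w + 3 * d 9) = 0 := by
          linear_combination 3 * hg - 4 * d 7 * x * hx' + (2 * d 7 * w - d 8 + 4 * d 8) * hw'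
        exact (mul_eq_zero.mp e).resolve_left (mul_ne_zero (by norm_num) h7)
      linear_combination y 0 * hx' + y 1 * hw' + y 2 * hg'
  have h30 : 3 * d 0 ≠ 0 := mul_ne_zero three_ne_zero h0
  obtain ⟨x1, hx1⟩ : ∃ x1, x1 = (-d 2 + z) / (3 * d 0) := ⟨_, rfl⟩
  obtain ⟨x2, hx2⟩ : ∃ x2, x2 = (-d 2 - z) / (3 * d 0) := ⟨_, rfl⟩
  have e1 : 3 * d 0 * x1 = -d 2 + z := by
    rw [hx1]
    field_simp
  have e2 : 3 * d 0 * x2 = -d 2 - z := by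
    rw [hx2]
    field_simp
  by_cases g1 : 4 * d 7 * (d 0 * x1 ^ 3 + d 2 * x1 ^ 2 + d 5 * x1 + d 9) = d 8 ^ 2
  · exact key x1 (Or.inl e1) g1
  by_cases g2 : 4 * d 7 * (d 0 * x2 ^ 3 + d 2 * x2 ^ 2 + d 5 * x2 + d 9) = d 8 ^ 2
  · exact key x2 (Or.inr e2) g2
  exfalso
  have hprod : (27 * d 0 ^ 2 * (4 * d 7 * (d 0 * x1 ^ 3 + d 2 * x1 ^ 2 + d 5 * x1 + d 9) - d 8 ^ 2)) *
      (27 * d 0 ^ 2 * (4 * d 7 * (d 0 * x2 ^ 3 + d 2 * x2 ^ 2 + d 5 * x2 + d 9) - d 8 ^ 2)) = 0 := by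
    have t1 : 27 * d 0 ^ 2 * (4 * d 7 * (d 0 * x1 ^ 3 + d 2 * x1 ^ 2 + d 5 * x1 + d 9) - d 8 ^ 2) =
        4 * d 7 * ((3 * d 0 * x1) ^ 3 + 3 * d 2 * (3 * d 0 * x1) ^ 2 + 9 * d 0 * d 5 * (3 * d 0 * x1) +
          27 * d 0 ^ 2 * d 9) - 27 * d 0 ^ 2 * d 8 ^ 2 := by ring
    have t2 : 27 * d 0 ^ 2 * (4 * d 7 * (d 0 * x2 ^ 3 + d 2 * x2 ^ 2 + d 5 * x2 + d 9) - d 8 ^ 2) =
        4 * d 7 * ((3 * d 0 * x2) ^ 3 + 3 * d 2 * (3 * d 0 * x2) ^ 2 + 9 * d 0 * d 5 * (3 * d 0 * x2) +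
          27 * d 0 ^ 2 * d 9) - 27 * d 0 ^ 2 * d 8 ^ 2 := by ring
    rw [t1, t2, e1, e2]
    have hm : (64 : k) ≠ 0 := by norm_num
    apply mul_left_cancel₀ hm
    rw [mul_zero]
    have hz2 : z ^ 2 - (d 2 ^ 2 - 3 * d 0 * d 5) = 0 := by rw [hz, sub_self]
    linear_combination hD' - 1024 * d 7 ^ 2 * ((z ^ 2) ^ 2 - 5 * (d 2 ^ 2 - 3 * d 0 * d 5) * z ^ 2 +
      4 * (d 2 ^ 2 - 3 * d 0 * d 5) ^ 2) * hz2
  have hne : 27 * d 0 ^ 2 ≠ 0 := mul_ne_zero (by norm_num) (pow_ne_zero _ h0)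
  rcases mul_eq_zero.mp hprod with h | h
  · rcases mul_eq_zero.mp h with h | h
    · exact hne h
    · exact g1 (sub_eq_zero.mp h)
  · rcases mul_eq_zero.mp h with h | h
    · exact hne h
    · exact g2 (sub_eq_zero.mp h)

/-- Coordinates with three different points at infinity. -/
theorem exists_trans (c : Fin 10 → k) (h : ∀ p : Fin 3 → k, (∀ q, dcub c p q = 0) → p = 0) :
    ∃ N : Matrix (Fin 3) (Fin 3) k, N.det ≠ 0 ∧ act c N 0 ≠ 0 ∧ Dbin (act c N) ≠ 0 := by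
  rcases flex_form c with ⟨p, hp, h1⟩ | ⟨N, hN, h1, h3, h4, h6, h0, h7⟩
  · exact absurd (h p h1) hp
  obtain ⟨d, hd⟩ : ∃ d, d = act c N := ⟨_, rfl⟩
  rw [← hd] at h1 h3 h4 h6 h0 h7
  obtain ⟨x, hx⟩ : ∃ x : k, d 8 ^ 2 - 4 * d 7 * (d 0 * x ^ 3 + d 2 * x ^ 2 + d 5 * x + d 9) ≠ 0 := by
    by_contra hcon
    push Not at hcon
    have e0 := hcon 0
    have e1 := hcon 1
    have e2 := hcon (-1)
    have e3 := hcon 2
    have e : (24 * d 7) * d 0 = 0 := by linear_combination -e3 + 3 * e1 - 3 * e0 + e2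
    rcases mul_eq_zero.mp e with h | h
    · exact (mul_ne_zero (by norm_num) h7) h
    · exact h0 h
  obtain ⟨G, hG⟩ : ∃ G, G = d 0 * x ^ 3 + d 2 * x ^ 2 + d 5 * x + d 9 := ⟨_, rfl⟩
  rw [← hG] at hx
  obtain ⟨y, hy⟩ : ∃ y : k, d 7 * y ^ 2 + d 8 * y + G ≠ 0 := by
    by_contra hcon
    push Not at hcon
    have e0 := hcon 0
    have e1 := hcon 1
    have e2 := hcon (-1)
    have e : 2 * d 7 = 0 := by linear_combination e1 - 2 * e0 + e2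
    exact (mul_ne_zero two_ne_zero h7) e
  let M : Matrix (Fin 3) (Fin 3) k := !![x, 0, 1; y, 1, 0; 1, 0, 0]
  have hM : M.det = -1 := by
    rw [Matrix.det_fin_three]
    simp [M]
  have a0 : act d M 0 = d 7 * y ^ 2 + d 8 * y + G := by
    have : act d M 0 = cub d x y 1 := rfl
    rw [this, hG]
    unfold cub
    rw [h1, h3, h4, h6]
    ring
  have a1 : act d M 1 = 2 * d 7 * y + d 8 := by
    have : act d M 1 = dcub d ![x, y, 1] ![0, 1, 0] := by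
      simp [act, pull, M, dcub]
    rw [this, dcub_vec]
    simp
    rw [h1, h3, h4, h6]
    ring
  have a3 : act d M 3 = d 7 := by
    have : act d M 3 = dcub d ![0, 1, 0] ![x, y, 1] := by
      simp [act, pull, M, dcub]
    rw [this, dcub_vec]
    simp
    rw [h3, h6]
    ring
  have a6 : act d M 6 = 0 := by
    have : act d M 6 = cub d 0 1 0 := rfl
    rw [this]
    unfold cub
    rw [h6]
    ring
  refine ⟨N * M, ?_, ?_, ?_⟩
  · rw [Matrix.det_mul, hM]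
    simpa using hN
  · rw [act_mul, ← hd, a0]
    exact hy
  · rw [act_mul, ← hd]
    unfold Dbin
    rw [a0, a1, a3, a6]
    have e : (2 * d 7 * y + d 8) ^ 2 * d 7 ^ 2 - 4 * (d 7 * y ^ 2 + d 8 * y + G) * d 7 ^ 3 -
        4 * (2 * d 7 * y + d 8) ^ 3 * 0 - 27 * (d 7 * y ^ 2 + d 8 * y + G) ^ 2 * 0 ^ 2 +
        18 * (d 7 * y ^ 2 + d 8 * y + G) * (2 * d 7 * y + d 8) * d 7 * 0 = d 7 ^ 2 * (d 8 ^ 2 - 4 * d 7 * G) := by
      ring
    rw [e]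
    exact mul_ne_zero (pow_ne_zero _ h7) hx

end Pool.Agent.Helper83.KPA

end CX
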