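import Mathlib
import Pool.Agent.Helper40.CX.H15KP.DefG
import Pool.Agent.Helper40.CX.H83KPA.Deg
import Pool.Agent.Helper40.CX.Good2

namespace CX

/-!
# KP: coordinates for the family of quartics of the surfaces with `p_g = 1`, `K ^ 2 = 2` and torsion of order two

`G_l = β² - 4 α γ` with `α = 4 l (f0 - l g0)`, `β = l³ b² - a² + 4 l f2 - 4 l² g2`, `γ = 4 l (f4 - l g4)`, `a, b` of degree
at most `1`, `f2, g2` of degree at most `2`, `f4, g4` of degree at most `4` in `s`. The invariants of `G_l` are `l² A`, `l³ B` with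
`deg A ≤ 8`, `deg B ≤ 12`.
-/

set_option linter.unusedSectionVars false

namespace Pool.Agent.Helper83.KPA

open Pool.Agent.Helper15.KP (QS QT qua)
open Polynomial

universe u

section ring

variable {R : Type*} [CommRing R]

/-- The coefficients of `β² + r`. -/
def sq5 (B : Fin 3 → R) (r : Fin 5 → R) : Fin 5 → R :=
  ![B 0 ^ 2 + r 0, 2 * B 0 * B 1 + r 1, B 1 ^ 2 + 2 * B 0 * B 2 + r 2, 2 * B 1 * B 2 + r 3, B 2 ^ 2 + r 4]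

lemma sq5_0 (B : Fin 3 → R) (r : Fin 5 → R) : sq5 B r 0 = B 0 ^ 2 + r 0 := rfl
lemma sq5_1 (B : Fin 3 → R) (r : Fin 5 → R) : sq5 B r 1 = 2 * B 0 * B 1 + r 1 := rfl
lemma sq5_2 (B : Fin 3 → R) (r : Fin 5 → R) : sq5 B r 2 = B 1 ^ 2 + 2 * B 0 * B 2 + r 2 := rfl
lemma sq5_3 (B : Fin 3 → R) (r : Fin 5 → R) : sq5 B r 3 = 2 * B 1 * B 2 + r 3 := rfl
lemma sq5_4 (B : Fin 3 → R) (r : Fin 5 → R) : sq5 B r 4 = B 2 ^ 2 + r 4 := rfl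

lemma QS_sq5 {B h : Fin 3 → R} {r' r : Fin 5 → R} {a b t : R} (h0 : B 0 = t * h 0 - b ^ 2)
    (h1 : B 1 = t * h 1 - 2 * a * b) (h2 : B 2 = t * h 2 - a ^ 2) (hr : ∀ i, r' i = t ^ 2 * r i) :
    QS (sq5 B r') = t ^ 2 * (-r 2 ^ 2 * t ^ 2 + 3 * r 1 * r 3 * t ^ 2 - 12 * r 0 * r 4 * t ^ 2 - 12 * h 2 ^ 2 * r 0 * t ^ 2
      + 6 * h 1 * h 2 * r 1 * t ^ 2 - 2 * h 1 ^ 2 * r 2 * t ^ 2 - h 1 ^ 4 * t ^ 2
      - 4 * h 0 * h 2 * r 2 * t ^ 2 + 6 * h 0 * h 1 * r 3 * t ^ 2 + 8 * h 0 * h 1 ^ 2 * h 2 * t ^ 2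
      - 12 * h 0 ^ 2 * r 4 * t ^ 2 - 16 * h 0 ^ 2 * h 2 ^ 2 * t ^ 2 + 4 * b ^ 2 * h 2 * r 2 * t
      - 6 * b ^ 2 * h 1 * r 3 * t - 8 * b ^ 2 * h 1 ^ 2 * h 2 * t + 24 * b ^ 2 * h 0 * r 4 * t
      + 32 * b ^ 2 * h 0 * h 2 ^ 2 * t - 12 * b ^ 4 * r 4 - 16 * b ^ 4 * h 2 ^ 2
      - 12 * a * b * h 2 * r 1 * t + 8 * a * b * h 1 * r 2 * t + 8 * a * b * h 1 ^ 3 * t
      - 12 * a * b * h 0 * r 3 * t - 32 * a * b * h 0 * h 1 * h 2 * t + 12 * a * b ^ 3 * r 3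
      + 32 * a * b ^ 3 * h 1 * h 2 + 24 * a ^ 2 * h 2 * r 0 * t - 6 * a ^ 2 * h 1 * r 1 * t
      + 4 * a ^ 2 * h 0 * r 2 * t - 8 * a ^ 2 * h 0 * h 1 ^ 2 * t + 32 * a ^ 2 * h 0 ^ 2 * h 2 * t
      - 12 * a ^ 2 * b ^ 2 * r 2 - 16 * a ^ 2 * b ^ 2 * h 1 ^ 2 - 32 * a ^ 2 * b ^ 2 * h 0 * h 2
      + 12 * a ^ 3 * b * r 1 + 32 * a ^ 3 * b * h 0 * h 1 - 12 * a ^ 4 * r 0 - 16 * a ^ 4 * h 0 ^ 2) := by
  unfold QS
  rw [sq5_0, sq5_1, sq5_2, sq5_3, sq5_4, h0, h1, h2, hr, hr, hr, hr, hr]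
  ring

set_option maxRecDepth 100000 in
lemma QT_sq5 {B h : Fin 3 → R} {r' r : Fin 5 → R} {a b t : R} (h0 : B 0 = t * h 0 - b ^ 2)
    (h1 : B 1 = t * h 1 - 2 * a * b) (h2 : B 2 = t * h 2 - a ^ 2) (hr : ∀ i, r' i = t ^ 2 * r i) :
    QT (sq5 B r') = t ^ 3 * (2 * r 2 ^ 3 * t ^ 3 - 9 * r 1 * r 2 * r 3 * t ^ 3 + 27 * r 1 ^ 2 * r 4 * t ^ 3
      + 27 * r 0 * r 3 ^ 2 * t ^ 3 - 72 * r 0 * r 2 * r 4 * t ^ 3 + 27 * h 2 ^ 2 * r 1 ^ 2 * t ^ 3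
      - 72 * h 2 ^ 2 * r 0 * r 2 * t ^ 3 - 18 * h 1 * h 2 * r 1 * r 2 * t ^ 3
      + 108 * h 1 * h 2 * r 0 * r 3 * t ^ 3 + 6 * h 1 ^ 2 * r 2 ^ 2 * t ^ 3
      - 9 * h 1 ^ 2 * r 1 * r 3 * t ^ 3 - 72 * h 1 ^ 2 * r 0 * r 4 * t ^ 3
      + 36 * h 1 ^ 2 * h 2 ^ 2 * r 0 * t ^ 3 - 18 * h 1 ^ 3 * h 2 * r 1 * t ^ 3
      + 6 * h 1 ^ 4 * r 2 * t ^ 3 + 2 * h 1 ^ 6 * t ^ 3 + 12 * h 0 * h 2 * r 2 ^ 2 * t ^ 3
      - 18 * h 0 * h 2 * r 1 * r 3 * t ^ 3 - 144 * h 0 * h 2 * r 0 * r 4 * t ^ 3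
      - 144 * h 0 * h 2 ^ 3 * r 0 * t ^ 3 - 18 * h 0 * h 1 * r 2 * r 3 * t ^ 3
      + 108 * h 0 * h 1 * r 1 * r 4 * t ^ 3 + 72 * h 0 * h 1 * h 2 ^ 2 * r 1 * t ^ 3
      - 12 * h 0 * h 1 ^ 2 * h 2 * r 2 * t ^ 3 - 18 * h 0 * h 1 ^ 3 * r 3 * t ^ 3
      - 24 * h 0 * h 1 ^ 4 * h 2 * t ^ 3 + 27 * h 0 ^ 2 * r 3 ^ 2 * t ^ 3
      - 72 * h 0 ^ 2 * r 2 * r 4 * t ^ 3 - 48 * h 0 ^ 2 * h 2 ^ 2 * r 2 * t ^ 3
      + 72 * h 0 ^ 2 * h 1 * h 2 * r 3 * t ^ 3 + 36 * h 0 ^ 2 * h 1 ^ 2 * r 4 * t ^ 3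
      + 96 * h 0 ^ 2 * h 1 ^ 2 * h 2 ^ 2 * t ^ 3 - 144 * h 0 ^ 3 * h 2 * r 4 * t ^ 3
      - 128 * h 0 ^ 3 * h 2 ^ 3 * t ^ 3 - 12 * b ^ 2 * h 2 * r 2 ^ 2 * t ^ 2
      + 18 * b ^ 2 * h 2 * r 1 * r 3 * t ^ 2 + 144 * b ^ 2 * h 2 * r 0 * r 4 * t ^ 2
      + 144 * b ^ 2 * h 2 ^ 3 * r 0 * t ^ 2 + 18 * b ^ 2 * h 1 * r 2 * r 3 * t ^ 2
      - 108 * b ^ 2 * h 1 * r 1 * r 4 * t ^ 2 - 72 * b ^ 2 * h 1 * h 2 ^ 2 * r 1 * t ^ 2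
      + 12 * b ^ 2 * h 1 ^ 2 * h 2 * r 2 * t ^ 2 + 18 * b ^ 2 * h 1 ^ 3 * r 3 * t ^ 2
      + 24 * b ^ 2 * h 1 ^ 4 * h 2 * t ^ 2 - 54 * b ^ 2 * h 0 * r 3 ^ 2 * t ^ 2
      + 144 * b ^ 2 * h 0 * r 2 * r 4 * t ^ 2 + 96 * b ^ 2 * h 0 * h 2 ^ 2 * r 2 * t ^ 2
      - 144 * b ^ 2 * h 0 * h 1 * h 2 * r 3 * t ^ 2 - 72 * b ^ 2 * h 0 * h 1 ^ 2 * r 4 * t ^ 2
      - 192 * b ^ 2 * h 0 * h 1 ^ 2 * h 2 ^ 2 * t ^ 2 + 432 * b ^ 2 * h 0 ^ 2 * h 2 * r 4 * t ^ 2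
      + 384 * b ^ 2 * h 0 ^ 2 * h 2 ^ 3 * t ^ 2 + 27 * b ^ 4 * r 3 ^ 2 * t - 72 * b ^ 4 * r 2 * r 4 * t
      - 48 * b ^ 4 * h 2 ^ 2 * r 2 * t + 72 * b ^ 4 * h 1 * h 2 * r 3 * t + 36 * b ^ 4 * h 1 ^ 2 * r 4 * t
      + 96 * b ^ 4 * h 1 ^ 2 * h 2 ^ 2 * t - 432 * b ^ 4 * h 0 * h 2 * r 4 * t
      - 384 * b ^ 4 * h 0 * h 2 ^ 3 * t + 144 * b ^ 6 * h 2 * r 4 + 128 * b ^ 6 * h 2 ^ 3
      + 36 * a * b * h 2 * r 1 * r 2 * t ^ 2 - 216 * a * b * h 2 * r 0 * r 3 * t ^ 2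
      - 24 * a * b * h 1 * r 2 ^ 2 * t ^ 2 + 36 * a * b * h 1 * r 1 * r 3 * t ^ 2
      + 288 * a * b * h 1 * r 0 * r 4 * t ^ 2 - 144 * a * b * h 1 * h 2 ^ 2 * r 0 * t ^ 2
      + 108 * a * b * h 1 ^ 2 * h 2 * r 1 * t ^ 2 - 48 * a * b * h 1 ^ 3 * r 2 * t ^ 2
      - 24 * a * b * h 1 ^ 5 * t ^ 2 + 36 * a * b * h 0 * r 2 * r 3 * t ^ 2
      - 216 * a * b * h 0 * r 1 * r 4 * t ^ 2 - 144 * a * b * h 0 * h 2 ^ 2 * r 1 * t ^ 2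
      + 48 * a * b * h 0 * h 1 * h 2 * r 2 * t ^ 2 + 108 * a * b * h 0 * h 1 ^ 2 * r 3 * t ^ 2
      + 192 * a * b * h 0 * h 1 ^ 3 * h 2 * t ^ 2 - 144 * a * b * h 0 ^ 2 * h 2 * r 3 * t ^ 2
      - 144 * a * b * h 0 ^ 2 * h 1 * r 4 * t ^ 2 - 384 * a * b * h 0 ^ 2 * h 1 * h 2 ^ 2 * t ^ 2
      - 36 * a * b ^ 3 * r 2 * r 3 * t + 216 * a * b ^ 3 * r 1 * r 4 * t
      + 144 * a * b ^ 3 * h 2 ^ 2 * r 1 * t - 48 * a * b ^ 3 * h 1 * h 2 * r 2 * t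
      - 108 * a * b ^ 3 * h 1 ^ 2 * r 3 * t - 192 * a * b ^ 3 * h 1 ^ 3 * h 2 * t
      + 288 * a * b ^ 3 * h 0 * h 2 * r 3 * t + 288 * a * b ^ 3 * h 0 * h 1 * r 4 * t
      + 768 * a * b ^ 3 * h 0 * h 1 * h 2 ^ 2 * t - 144 * a * b ^ 5 * h 2 * r 3
      - 144 * a * b ^ 5 * h 1 * r 4 - 384 * a * b ^ 5 * h 1 * h 2 ^ 2 - 54 * a ^ 2 * h 2 * r 1 ^ 2 * t ^ 2
      + 144 * a ^ 2 * h 2 * r 0 * r 2 * t ^ 2 + 18 * a ^ 2 * h 1 * r 1 * r 2 * t ^ 2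
      - 108 * a ^ 2 * h 1 * r 0 * r 3 * t ^ 2 - 72 * a ^ 2 * h 1 ^ 2 * h 2 * r 0 * t ^ 2
      + 18 * a ^ 2 * h 1 ^ 3 * r 1 * t ^ 2 - 12 * a ^ 2 * h 0 * r 2 ^ 2 * t ^ 2
      + 18 * a ^ 2 * h 0 * r 1 * r 3 * t ^ 2 + 144 * a ^ 2 * h 0 * r 0 * r 4 * t ^ 2
      + 432 * a ^ 2 * h 0 * h 2 ^ 2 * r 0 * t ^ 2 - 144 * a ^ 2 * h 0 * h 1 * h 2 * r 1 * t ^ 2
      + 12 * a ^ 2 * h 0 * h 1 ^ 2 * r 2 * t ^ 2 + 24 * a ^ 2 * h 0 * h 1 ^ 4 * t ^ 2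
      + 96 * a ^ 2 * h 0 ^ 2 * h 2 * r 2 * t ^ 2 - 72 * a ^ 2 * h 0 ^ 2 * h 1 * r 3 * t ^ 2
      - 192 * a ^ 2 * h 0 ^ 2 * h 1 ^ 2 * h 2 * t ^ 2 + 144 * a ^ 2 * h 0 ^ 3 * r 4 * t ^ 2
      + 384 * a ^ 2 * h 0 ^ 3 * h 2 ^ 2 * t ^ 2 + 36 * a ^ 2 * b ^ 2 * r 2 ^ 2 * t
      - 54 * a ^ 2 * b ^ 2 * r 1 * r 3 * t - 432 * a ^ 2 * b ^ 2 * r 0 * r 4 * t
      - 288 * a ^ 2 * b ^ 2 * h 2 ^ 2 * r 0 * t - 72 * a ^ 2 * b ^ 2 * h 1 * h 2 * r 1 * t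
      + 132 * a ^ 2 * b ^ 2 * h 1 ^ 2 * r 2 * t + 96 * a ^ 2 * b ^ 2 * h 1 ^ 4 * t
      - 240 * a ^ 2 * b ^ 2 * h 0 * h 2 * r 2 * t - 72 * a ^ 2 * b ^ 2 * h 0 * h 1 * r 3 * t
      - 192 * a ^ 2 * b ^ 2 * h 0 * h 1 ^ 2 * h 2 * t - 288 * a ^ 2 * b ^ 2 * h 0 ^ 2 * r 4 * t
      - 768 * a ^ 2 * b ^ 2 * h 0 ^ 2 * h 2 ^ 2 * t + 144 * a ^ 2 * b ^ 4 * h 2 * r 2
      + 144 * a ^ 2 * b ^ 4 * h 1 * r 3 + 384 * a ^ 2 * b ^ 4 * h 1 ^ 2 * h 2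
      + 144 * a ^ 2 * b ^ 4 * h 0 * r 4 + 384 * a ^ 2 * b ^ 4 * h 0 * h 2 ^ 2
      - 36 * a ^ 3 * b * r 1 * r 2 * t + 216 * a ^ 3 * b * r 0 * r 3 * t
      + 288 * a ^ 3 * b * h 1 * h 2 * r 0 * t - 108 * a ^ 3 * b * h 1 ^ 2 * r 1 * t
      + 288 * a ^ 3 * b * h 0 * h 2 * r 1 * t - 48 * a ^ 3 * b * h 0 * h 1 * r 2 * t
      - 192 * a ^ 3 * b * h 0 * h 1 ^ 3 * t + 144 * a ^ 3 * b * h 0 ^ 2 * r 3 * t
      + 768 * a ^ 3 * b * h 0 ^ 2 * h 1 * h 2 * t - 144 * a ^ 3 * b ^ 3 * h 2 * r 1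
      - 144 * a ^ 3 * b ^ 3 * h 1 * r 2 - 128 * a ^ 3 * b ^ 3 * h 1 ^ 3 - 144 * a ^ 3 * b ^ 3 * h 0 * r 3
      - 768 * a ^ 3 * b ^ 3 * h 0 * h 1 * h 2 + 27 * a ^ 4 * r 1 ^ 2 * t - 72 * a ^ 4 * r 0 * r 2 * t
      + 36 * a ^ 4 * h 1 ^ 2 * r 0 * t - 432 * a ^ 4 * h 0 * h 2 * r 0 * t
      + 72 * a ^ 4 * h 0 * h 1 * r 1 * t - 48 * a ^ 4 * h 0 ^ 2 * r 2 * t
      + 96 * a ^ 4 * h 0 ^ 2 * h 1 ^ 2 * t - 384 * a ^ 4 * h 0 ^ 3 * h 2 * t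
      + 144 * a ^ 4 * b ^ 2 * h 2 * r 0 + 144 * a ^ 4 * b ^ 2 * h 1 * r 1
      + 144 * a ^ 4 * b ^ 2 * h 0 * r 2 + 384 * a ^ 4 * b ^ 2 * h 0 * h 1 ^ 2
      + 384 * a ^ 4 * b ^ 2 * h 0 ^ 2 * h 2 - 144 * a ^ 5 * b * h 1 * r 0 - 144 * a ^ 5 * b * h 0 * r 1
      - 384 * a ^ 5 * b * h 0 ^ 2 * h 1 + 144 * a ^ 6 * h 0 * r 0 + 128 * a ^ 6 * h 0 ^ 3) := by
  unfold QT
  rw [sq5_0, sq5_1, sq5_2, sq5_3, sq5_4, h0, h1, h2, hr, hr, hr, hr, hr]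
  ring

lemma sq5_map {S : Type*} [CommRing S] (f : R →+* S) (B : Fin 3 → R) (r : Fin 5 → R) (i : Fin 5) :
    f (sq5 B r i) = sq5 (fun j => f (B j)) (fun j => f (r j)) i := by
  fin_cases i <;> simp [sq5, map_ofNat]

lemma sq5_scale (t : R) (B : Fin 3 → R) (r : Fin 5 → R) (i : Fin 5) :
    sq5 (fun j => t * B j) (fun j => t ^ 2 * r j) i = t ^ 2 * sq5 B r i := by
  fin_cases i <;> simp [sq5] <;> ring

lemma QS_smul (t : R) (e : Fin 5 → R) : QS (fun i => t * e i) = t ^ 2 * QS e := by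
  unfold QS
  ring

lemma QT_smul (t : R) (e : Fin 5 → R) : QT (fun i => t * e i) = t ^ 3 * QT e := by
  unfold QT
  ring

lemma QS_map {S : Type*} [CommRing S] (f : R →+* S) (e : Fin 5 → R) : QS (fun i => f (e i)) = f (QS e) := by
  unfold QS
  simp only [map_add, map_sub, map_mul, map_pow, map_neg, map_ofNat]

lemma QT_map {S : Type*} [CommRing S] (f : R →+* S) (e : Fin 5 → R) : QT (fun i => f (e i)) = f (QT e) := by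
  unfold QT
  simp only [map_add, map_sub, map_mul, map_pow, map_neg, map_ofNat]

/-- The coefficients of `s'⁴ e (c + 1 / s')`. -/
def inv5 (e : Fin 5 → R) (c : R) : Fin 5 → R :=
  ![e 4, 4 * c * e 4 + e 3, 6 * c ^ 2 * e 4 + 3 * c * e 3 + e 2,
    4 * c ^ 3 * e 4 + 3 * c ^ 2 * e 3 + 2 * c * e 2 + e 1, c ^ 4 * e 4 + c ^ 3 * e 3 + c ^ 2 * e 2 + c * e 1 + e 0]

lemma inv5_0 (e : Fin 5 → R) (c : R) : inv5 e c 0 = e 4 := rfl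
lemma inv5_1 (e : Fin 5 → R) (c : R) : inv5 e c 1 = 4 * c * e 4 + e 3 := rfl
lemma inv5_2 (e : Fin 5 → R) (c : R) : inv5 e c 2 = 6 * c ^ 2 * e 4 + 3 * c * e 3 + e 2 := rfl
lemma inv5_3 (e : Fin 5 → R) (c : R) : inv5 e c 3 = 4 * c ^ 3 * e 4 + 3 * c ^ 2 * e 3 + 2 * c * e 2 + e 1 := rfl
lemma inv5_4 (e : Fin 5 → R) (c : R) : inv5 e c 4 = c ^ 4 * e 4 + c ^ 3 * e 3 + c ^ 2 * e 2 + c * e 1 + e 0 := rfl

lemma QS_inv5 (e : Fin 5 → R) (c : R) : QS (inv5 e c) = QS e := by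
  unfold QS
  rw [inv5_0, inv5_1, inv5_2, inv5_3, inv5_4]
  ring

lemma QT_inv5 (e : Fin 5 → R) (c : R) : QT (inv5 e c) = QT e := by
  unfold QT
  rw [inv5_0, inv5_1, inv5_2, inv5_3, inv5_4]
  ring

lemma qua_inv5 (e : Fin 5 → R) {c s s' : R} (h : (s - c) * s' = 1) : s' ^ 4 * qua e s = qua (inv5 e c) s' := by
  have h1 : s * s' = 1 + c * s' := by linear_combination h
  have h2 : s' ^ 4 * qua e s = e 4 * (s * s') ^ 4 + e 3 * (s * s') ^ 3 * s' + e 2 * (s * s') ^ 2 * s' ^ 2 +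
      e 1 * (s * s') * s' ^ 3 + e 0 * s' ^ 4 := by
    unfold qua
    ring
  rw [h2, h1]
  unfold qua
  rw [inv5_0, inv5_1, inv5_2, inv5_3, inv5_4]
  ring

end ring

section poly

variable {k : Type u} [Field k]

set_option maxRecDepth 100000 in
lemma at_zero2 (a b : k) (h B : Fin 3 → k[X]) (r' r : Fin 5 → k[X]) (h0 : B 0 = X * h 0 - C b ^ 2)
    (h1 : B 1 = X * h 1 - 2 * C a * C b) (h2 : B 2 = X * h 2 - C a ^ 2) (hr : ∀ i, r' i = X ^ 2 * r i) :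
    ∃ S' T' : k[X], QS (sq5 B r') = X ^ 2 * S' ∧ QT (sq5 B r') = X ^ 3 * T' :=
  ⟨_, _, QS_sq5 h0 h1 h2 hr, QT_sq5 h0 h1 h2 hr⟩

/-- The quadratic part. -/
noncomputable def quB (a b f2 g2 : k[X]) : Fin 3 → k[X] :=
  ![C (b.coeff 0 ^ 2) * X ^ 3 - C (a.coeff 0 ^ 2) + C (4 * f2.coeff 0) * X - C (4 * g2.coeff 0) * X ^ 2,
    C (2 * b.coeff 0 * b.coeff 1) * X ^ 3 - C (2 * a.coeff 0 * a.coeff 1) + C (4 * f2.coeff 1) * X -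
      C (4 * g2.coeff 1) * X ^ 2,
    C (b.coeff 1 ^ 2) * X ^ 3 - C (a.coeff 1 ^ 2) + C (4 * f2.coeff 2) * X - C (4 * g2.coeff 2) * X ^ 2]

/-- The remaining part. -/
noncomputable def quR (f4 g4 : k[X]) (f0 g0 : k) : Fin 5 → k[X] :=
  fun i => X ^ 2 * (- 64 * (C f0 - C g0 * X) * (C (f4.coeff i) - C (g4.coeff i) * X))

/-- The quadratic part, reversed. -/
noncomputable def quB' (a b f2 g2 : k[X]) : Fin 3 → k[X] :=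
  ![X * (C (a.coeff 0 ^ 2) * X ^ 2 - C (4 * f2.coeff 0) * X + C (4 * g2.coeff 0)) - C (b.coeff 0) ^ 2,
    X * (C (2 * a.coeff 0 * a.coeff 1) * X ^ 2 - C (4 * f2.coeff 1) * X + C (4 * g2.coeff 1)) -
      2 * C (b.coeff 1) * C (b.coeff 0),
    X * (C (a.coeff 1 ^ 2) * X ^ 2 - C (4 * f2.coeff 2) * X + C (4 * g2.coeff 2)) - C (b.coeff 1) ^ 2]

/-- The remaining part, reversed. -/
noncomputable def quR' (f4 g4 : k[X]) (f0 g0 : k) : Fin 5 → k[X] :=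
  fun i => X ^ 2 * (- 64 * (C f0 * X - C g0) * (C (f4.coeff i) * X - C (g4.coeff i)))

/-- The coefficients of the quartics. -/
noncomputable def quE (a b f2 g2 f4 g4 : k[X]) (f0 g0 : k) : Fin 5 → k[X] :=
  sq5 (quB a b f2 g2) (quR f4 g4 f0 g0)

/-- The reversed coefficients. -/
noncomputable def quE' (a b f2 g2 f4 g4 : k[X]) (f0 g0 : k) : Fin 5 → k[X] :=
  sq5 (quB' a b f2 g2) (quR' f4 g4 f0 g0)

lemma key_B {r q : k} (h : r * q = 1) (a0 b0 f g : k) : b0 * r ^ 3 - a0 + 4 * f * r - 4 * g * r ^ 2 =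
    - r ^ 3 * (q * (a0 * q ^ 2 - 4 * f * q + 4 * g) - b0) := by
  linear_combination (a0 * (1 + r * q + (r * q) ^ 2) - 4 * f * r * (1 + r * q) + 4 * g * r ^ 2) * h

lemma quB_eval (a b f2 g2 : k[X]) {r : k} (hr : r ≠ 0) (j : Fin 3) :
    eval r (quB a b f2 g2 j) = - r ^ 3 * eval r⁻¹ (quB' a b f2 g2 j) := by
  have h := mul_inv_cancel₀ hr
  fin_cases j
  · have := key_B h (a.coeff 0 ^ 2) (b.coeff 0 ^ 2) (f2.coeff 0) (g2.coeff 0)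
    simpa [quB, quB'] using this
  · have := key_B h (2 * a.coeff 0 * a.coeff 1) (2 * b.coeff 0 * b.coeff 1) (f2.coeff 1) (g2.coeff 1)
    simp [quB, quB']
    linear_combination this
  · have := key_B h (a.coeff 1 ^ 2) (b.coeff 1 ^ 2) (f2.coeff 2) (g2.coeff 2)
    simpa [quB, quB'] using this

lemma quR_eval (f4 g4 : k[X]) (f0 g0 : k) {r : k} (hr : r ≠ 0) (j : Fin 5) :
    eval r (quR f4 g4 f0 g0 j) = (- r ^ 3) ^ 2 * eval r⁻¹ (quR' f4 g4 f0 g0 j) := by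
  have h := mul_inv_cancel₀ hr
  obtain ⟨q, hq⟩ : ∃ q, q = r⁻¹ := ⟨_, rfl⟩
  rw [← hq] at h ⊢
  have h1 : r * (f0 * q - g0) = f0 - g0 * r := by linear_combination f0 * h
  have h2 : r * (f4.coeff j * q - g4.coeff j) = f4.coeff j - g4.coeff j * r := by
    linear_combination f4.coeff j * h
  unfold quR quR'
  simp only [eval_mul, eval_pow, eval_X, eval_sub, eval_C, eval_neg, eval_ofNat]
  rw [← h1, ← h2]
  linear_combination 64 * r ^ 4 * (f0 * q - g0) * (f4.coeff j * q - g4.coeff j) * (1 + r * q) * h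

lemma quE_eval (a b f2 g2 f4 g4 : k[X]) (f0 g0 : k) {r : k} (hr : r ≠ 0) (i : Fin 5) :
    eval r (quE a b f2 g2 f4 g4 f0 g0 i) = r ^ 6 * eval r⁻¹ (quE' a b f2 g2 f4 g4 f0 g0 i) := by
  have h1 := sq5_map (evalRingHom r) (quB a b f2 g2) (quR f4 g4 f0 g0) i
  have h2 := sq5_map (evalRingHom r⁻¹) (quB' a b f2 g2) (quR' f4 g4 f0 g0) i
  have h3 := sq5_scale (- r ^ 3) (fun j => evalRingHom r⁻¹ (quB' a b f2 g2 j))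
    (fun j => evalRingHom r⁻¹ (quR' f4 g4 f0 g0 j)) i
  have e1 : (fun j => evalRingHom r (quB a b f2 g2 j)) = fun j => - r ^ 3 * evalRingHom r⁻¹ (quB' a b f2 g2 j) :=
    funext fun j => quB_eval a b f2 g2 hr j
  have e2 : (fun j => evalRingHom r (quR f4 g4 f0 g0 j)) =
      fun j => (- r ^ 3) ^ 2 * evalRingHom r⁻¹ (quR' f4 g4 f0 g0 j) :=
    funext fun j => quR_eval f4 g4 f0 g0 hr j
  rw [e1, e2, h3, ← h2] at h1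
  have h4 : eval r (quE a b f2 g2 f4 g4 f0 g0 i) = evalRingHom r (sq5 (quB a b f2 g2) (quR f4 g4 f0 g0) i) := rfl
  rw [h4, h1]
  show (- r ^ 3) ^ 2 * eval r⁻¹ (quE' a b f2 g2 f4 g4 f0 g0 i) = _
  ring

/-- The degrees of the invariants. -/
theorem quE_deg [Infinite k] (a b f2 g2 f4 g4 : k[X]) (f0 g0 : k) : ∃ A B : k[X], A.natDegree ≤ 8 ∧
    B.natDegree ≤ 12 ∧ QS (quE a b f2 g2 f4 g4 f0 g0) = X ^ 2 * A ∧ QT (quE a b f2 g2 f4 g4 f0 g0) = X ^ 3 * B := by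
  obtain ⟨A, B, hA, hB⟩ := at_zero2 (a.coeff 1) (a.coeff 0)
    ![C (b.coeff 0 ^ 2) * X ^ 2 + C (4 * f2.coeff 0) - C (4 * g2.coeff 0) * X,
      C (2 * b.coeff 0 * b.coeff 1) * X ^ 2 + C (4 * f2.coeff 1) - C (4 * g2.coeff 1) * X,
      C (b.coeff 1 ^ 2) * X ^ 2 + C (4 * f2.coeff 2) - C (4 * g2.coeff 2) * X]
    (quB a b f2 g2) (quR f4 g4 f0 g0) _ (by simp [quB, map_ofNat]; ring) (by simp [quB, map_ofNat]; ring)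
    (by simp [quB, map_ofNat]; ring)
    (fun i => rfl)
  obtain ⟨A', B', hA', hB'⟩ := at_zero2 (b.coeff 1) (b.coeff 0)
    ![C (a.coeff 0 ^ 2) * X ^ 2 - C (4 * f2.coeff 0) * X + C (4 * g2.coeff 0),
      C (2 * a.coeff 0 * a.coeff 1) * X ^ 2 - C (4 * f2.coeff 1) * X + C (4 * g2.coeff 1),
      C (a.coeff 1 ^ 2) * X ^ 2 - C (4 * f2.coeff 2) * X + C (4 * g2.coeff 2)]
    (quB' a b f2 g2) (quR' f4 g4 f0 g0) _ rfl rfl rfl (fun i => rfl)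
  have hS : ∀ r : k, r ≠ 0 → (QS (quE a b f2 g2 f4 g4 f0 g0)).eval r = r ^ 10 * A'.eval r⁻¹ := by
    intro r hr
    have h1 : (QS (quE a b f2 g2 f4 g4 f0 g0)).eval r = QS (fun i => eval r (quE a b f2 g2 f4 g4 f0 g0 i)) :=
      (QS_map (evalRingHom r) _).symm
    have h2 : QS (fun i => eval r⁻¹ (quE' a b f2 g2 f4 g4 f0 g0 i)) = eval r⁻¹ (X ^ 2 * A') := by
      rw [← hA']
      exact QS_map (evalRingHom r⁻¹) _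
    rw [h1, funext (quE_eval a b f2 g2 f4 g4 f0 g0 hr), QS_smul, h2]
    simp only [eval_mul, eval_pow, eval_X]
    field_simp
  have hT : ∀ r : k, r ≠ 0 → (QT (quE a b f2 g2 f4 g4 f0 g0)).eval r = r ^ 15 * B'.eval r⁻¹ := by
    intro r hr
    have h1 : (QT (quE a b f2 g2 f4 g4 f0 g0)).eval r = QT (fun i => eval r (quE a b f2 g2 f4 g4 f0 g0 i)) :=
      (QT_map (evalRingHom r) _).symm
    have h2 : QT (fun i => eval r⁻¹ (quE' a b f2 g2 f4 g4 f0 g0 i)) = eval r⁻¹ (X ^ 3 * B') := by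
      rw [← hB']
      exact QT_map (evalRingHom r⁻¹) _
    rw [h1, funext (quE_eval a b f2 g2 f4 g4 f0 g0 hr), QT_smul, h2]
    simp only [eval_mul, eval_pow, eval_X]
    field_simp
  have dS := deg_of_inv hS
  have dT := deg_of_inv hT
  have hA2 : QS (quE a b f2 g2 f4 g4 f0 g0) = X ^ 2 * A := hA
  have hB2 : QT (quE a b f2 g2 f4 g4 f0 g0) = X ^ 3 * B := hB
  refine ⟨A, B, ?_, ?_, hA2, hB2⟩
  · rcases eq_or_ne A 0 with rfl | h0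
    · simp
    · rw [hA2, natDegree_mul (pow_ne_zero _ X_ne_zero) h0, natDegree_X_pow] at dS
      omega
  · rcases eq_or_ne B 0 with rfl | h0
    · simp
    · rw [hB2, natDegree_mul (pow_ne_zero _ X_ne_zero) h0, natDegree_X_pow] at dT
      omega

lemma aeval_deg1 {R : Type*} [CommRing R] [Algebra k R] {p : k[X]} (h : p.natDegree ≤ 1) (s : R) :
    aeval s p = algebraMap k R (p.coeff 1) * s + algebraMap k R (p.coeff 0) := by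
  rw [aeval_eq_sum_range' (n := 2) (by omega)]
  simp [Finset.sum_range_succ, Algebra.smul_def]
  ring

lemma aeval_deg2 {R : Type*} [CommRing R] [Algebra k R] {p : k[X]} (h : p.natDegree ≤ 2) (s : R) :
    aeval s p = algebraMap k R (p.coeff 2) * s ^ 2 + algebraMap k R (p.coeff 1) * s +
      algebraMap k R (p.coeff 0) := by
  rw [aeval_eq_sum_range' (n := 3) (by omega)]
  simp [Finset.sum_range_succ, Algebra.smul_def]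
  ring

lemma aeval_deg4 {R : Type*} [CommRing R] [Algebra k R] {p : k[X]} (h : p.natDegree ≤ 4) (s : R) :
    aeval s p = algebraMap k R (p.coeff 4) * s ^ 4 + algebraMap k R (p.coeff 3) * s ^ 3 +
      algebraMap k R (p.coeff 2) * s ^ 2 + algebraMap k R (p.coeff 1) * s + algebraMap k R (p.coeff 0) := by
  rw [aeval_eq_sum_range' (n := 5) (by omega)]
  simp [Finset.sum_range_succ, Algebra.smul_def]
  ring

lemma qua_sq5 {R : Type*} [CommRing R] (B : Fin 3 → R) (r : Fin 5 → R) (s : R) : qua (sq5 B r) s =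
    (B 2 * s ^ 2 + B 1 * s + B 0) ^ 2 + (r 4 * s ^ 4 + r 3 * s ^ 3 + r 2 * s ^ 2 + r 1 * s + r 0) := by
  unfold qua
  rw [sq5_0, sq5_1, sq5_2, sq5_3, sq5_4]
  ring

/-- The values of the quartics. -/
theorem quE_spec {a b f2 g2 f4 g4 : k[X]} {f0 g0 : k} (ha : a.natDegree ≤ 1) (hb : b.natDegree ≤ 1)
    (hf2 : f2.natDegree ≤ 2) (hg2 : g2.natDegree ≤ 2) (hf4 : f4.natDegree ≤ 4) (hg4 : g4.natDegree ≤ 4)
    {R : Type*} [CommRing R] [Algebra k R] (l s : R) : qua (fun i => aeval l (quE a b f2 g2 f4 g4 f0 g0 i)) s =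
    (l ^ 3 * (aeval s b) ^ 2 - (aeval s a) ^ 2 + 4 * l * aeval s f2 - 4 * l ^ 2 * aeval s g2) ^ 2 -
      4 * (4 * l * (algebraMap k R f0 - l * algebraMap k R g0)) * (4 * l * (aeval s f4 - l * aeval s g4)) := by
  have h1 : (fun i => aeval l (quE a b f2 g2 f4 g4 f0 g0 i)) =
      sq5 (fun j => aeval l (quB a b f2 g2 j)) (fun j => aeval l (quR f4 g4 f0 g0 j)) :=
    funext fun i => sq5_map ((aeval l : k[X] →ₐ[k] R) : k[X] →+* R) (quB a b f2 g2) (quR f4 g4 f0 g0) i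
  have b0 : aeval l (quB a b f2 g2 0) = algebraMap k R (b.coeff 0) ^ 2 * l ^ 3 - algebraMap k R (a.coeff 0) ^ 2 +
      4 * algebraMap k R (f2.coeff 0) * l - 4 * algebraMap k R (g2.coeff 0) * l ^ 2 := by
    simp [quB, map_ofNat]
  have b1 : aeval l (quB a b f2 g2 1) = 2 * algebraMap k R (b.coeff 0) * algebraMap k R (b.coeff 1) * l ^ 3 -
      2 * algebraMap k R (a.coeff 0) * algebraMap k R (a.coeff 1) +
      4 * algebraMap k R (f2.coeff 1) * l - 4 * algebraMap k R (g2.coeff 1) * l ^ 2 := by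
    simp [quB, map_ofNat]
  have b2 : aeval l (quB a b f2 g2 2) = algebraMap k R (b.coeff 1) ^ 2 * l ^ 3 - algebraMap k R (a.coeff 1) ^ 2 +
      4 * algebraMap k R (f2.coeff 2) * l - 4 * algebraMap k R (g2.coeff 2) * l ^ 2 := by
    simp [quB, map_ofNat]
  have r0 : ∀ j, aeval l (quR f4 g4 f0 g0 j) = l ^ 2 * (- 64 * (algebraMap k R f0 - algebraMap k R g0 * l) *
      (algebraMap k R (f4.coeff j) - algebraMap k R (g4.coeff j) * l)) := by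
    intro j
    simp [quR, map_ofNat]
  rw [h1, qua_sq5, b0, b1, b2, r0, r0, r0, r0, r0, aeval_deg1 ha, aeval_deg1 hb, aeval_deg2 hf2, aeval_deg2 hg2,
    aeval_deg4 hf4, aeval_deg4 hg4]
  simp only [Fin.val_zero, Fin.val_one, Fin.val_two, show ((3 : Fin 5) : ℕ) = 3 from rfl,
    show ((4 : Fin 5) : ℕ) = 4 from rfl]
  ring

/-- The member of the family at `l`. -/
noncomputable def Gq (a b f2 g2 f4 g4 : k[X]) (f0 g0 l : k) : k[X] :=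
  (C (l ^ 3) * b ^ 2 - a ^ 2 + C (4 * l) * f2 - C (4 * l ^ 2) * g2) ^ 2 -
    C (4 * (4 * l * (f0 - l * g0))) * (C (4 * l) * (f4 - C l * g4))

lemma Gq_eq {a b f2 g2 f4 g4 : k[X]} {f0 g0 : k} (ha : a.natDegree ≤ 1) (hb : b.natDegree ≤ 1)
    (hf2 : f2.natDegree ≤ 2) (hg2 : g2.natDegree ≤ 2) (hf4 : f4.natDegree ≤ 4) (hg4 : g4.natDegree ≤ 4) (l : k) :
    Gq a b f2 g2 f4 g4 f0 g0 l = qua (fun i => C (eval l (quE a b f2 g2 f4 g4 f0 g0 i))) X := by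
  have h1 := quE_spec ha hb hf2 hg2 hf4 hg4 (f0 := f0) (g0 := g0) (C l : k[X]) X
  have h2 : (fun i => aeval (C l : k[X]) (quE a b f2 g2 f4 g4 f0 g0 i)) =
      fun i => C (eval l (quE a b f2 g2 f4 g4 f0 g0 i)) := by
    funext i
    have h3 : (C l : k[X]) = algebraMap k k[X] l := rfl
    rw [h3, aeval_algebraMap_apply]
    rfl
  rw [h2] at h1
  rw [h1]
  unfold Gq
  simp only [aeval_X_left_apply, Polynomial.algebraMap_eq, map_mul, map_pow, map_sub, map_ofNat]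

section disc

variable [IsAlgClosed k] [Good k]

lemma disc4 (e3 e2 e1 e0 c r1 r2 r3 r4 : k) (h3 : e3 = -c * (r1 + r2 + r3 + r4))
    (h2 : e2 = c * (r1 * r2 + r1 * r3 + r1 * r4 + r2 * r3 + r2 * r4 + r3 * r4))
    (h1 : e1 = -c * (r1 * r2 * r3 + r1 * r2 * r4 + r1 * r3 * r4 + r2 * r3 * r4)) (h0 : e0 = c * (r1 * r2 * r3 * r4)) :
    4 * QS ![e0, e1, e2, e3, c] ^ 3 + QT ![e0, e1, e2, e3, c] ^ 2 = -27 * c ^ 6 * ((r1 - r2) * (r1 - r3) * (r1 - r4) *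
      (r2 - r3) * (r2 - r4) * (r3 - r4)) ^ 2 := by
  have q0 : (![e0, e1, e2, e3, c] : Fin 5 → k) 0 = e0 := rfl
  have q1 : (![e0, e1, e2, e3, c] : Fin 5 → k) 1 = e1 := rfl
  have q2 : (![e0, e1, e2, e3, c] : Fin 5 → k) 2 = e2 := rfl
  have q3 : (![e0, e1, e2, e3, c] : Fin 5 → k) 3 = e3 := rfl
  have q4 : (![e0, e1, e2, e3, c] : Fin 5 → k) 4 = c := rfl
  unfold QS QT
  rw [q0, q1, q2, q3, q4, h3, h2, h1, h0]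
  ring

lemma disc3 (e2 e1 e0 c r1 r2 r3 : k) (h2 : e2 = -c * (r1 + r2 + r3))
    (h1 : e1 = c * (r1 * r2 + r1 * r3 + r2 * r3)) (h0 : e0 = -c * (r1 * r2 * r3)) :
    4 * QS ![e0, e1, e2, c, 0] ^ 3 + QT ![e0, e1, e2, c, 0] ^ 2 = -27 * c ^ 6 * ((r1 - r2) * (r1 - r3) *
      (r2 - r3)) ^ 2 := by
  have q0 : (![e0, e1, e2, c, 0] : Fin 5 → k) 0 = e0 := rfl
  have q1 : (![e0, e1, e2, c, 0] : Fin 5 → k) 1 = e1 := rfl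
  have q2 : (![e0, e1, e2, c, 0] : Fin 5 → k) 2 = e2 := rfl
  have q3 : (![e0, e1, e2, c, 0] : Fin 5 → k) 3 = c := rfl
  have q4 : (![e0, e1, e2, c, 0] : Fin 5 → k) 4 = 0 := rfl
  unfold QS QT
  rw [q0, q1, q2, q3, q4, h2, h1, h0]
  ring

end disc

end poly

end Pool.Agent.Helper83.KPA

end CX
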